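import Pool.Agent.W_7d29a1_H96.DefsH96

/-!
One step of the bootstrap for the family of tilts with a good direction at every scale: from the
fluctuation exponent `x` to `aX p x / 2`, and the start.
-/

namespace Pool.Agent.W_7d29a1_H96.BooH80

open MeasureTheory ProbabilityTheory Filter Topology Pool.Agent.W_MP_7d29a1_pr
  Pool.Agent.W_7d29a1_h46 Pool.Agent.W_7d29a1_h46u Pool.Agent.W_7d29a1_D2
  Pool.Agent.W_7d29a1_D2.B35 Pool.Agent.W_7d29a1_V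

variable {d : ℕ} {ρ : Measure ℝ} [IsProbabilityMeasure ρ]

/-- The start: concentration. -/
theorem h1_80 (hd : 0 < d) (hρ : EM ρ) (β : ℝ) : H1 d ρ β := by
  intro h v C₁ p m e he q
  obtain ⟨C, hC, H⟩ := momU (d := d) hd hρ β q
  refine ⟨1, one_pos, C, fun t _ _ k _ n hn => ((H (h + k) n hn).2).trans ?_⟩
  have hn1 : (1 : ℝ) ≤ n := by exact_mod_cast hn
  have hn0 : (0 : ℝ) < n := by linarith
  refine mul_le_mul_of_nonneg_left ?_ hC
  rw [Real.rpow_mul hn0.le, Real.rpow_natCast]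
  refine pow_le_pow_left₀ (Real.rpow_nonneg hn0.le _) ?_ q
  have h1 : 1 ≤ (n : ℝ) ^ e := Real.one_le_rpow hn1 he.le
  have h2 : 0 ≤ (n : ℝ) ^ (1 / 2 : ℝ) := Real.rpow_nonneg hn0.le _
  have h3 : 0 ≤ Real.sqrt (n * t ^ (p - 1)) := Real.sqrt_nonneg _
  exact (le_add_of_nonneg_right h3).trans (le_mul_of_one_le_left (add_nonneg h2 h3) h1)

/-- One step. -/
theorem h3_80 (hd : 0 < d) (hρ : EM ρ) (β : ℝ) : H3 d ρ β := by
  intro h v CG p x m hm hp hx hV hT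
  have hax : 0 < aX p x := by
    have h1 : (p - 1) / p < 1 := by
      rw [div_lt_one (by linarith)]
      linarith
    have h2 : 0 ≤ (p - 1) / p := div_nonneg (by linarith) (by linarith)
    have h3 : (x - 1) * (p - 1) / p = (x - 1) * ((p - 1) / p) := by ring
    unfold aX
    rw [h3]
    nlinarith
  intro e he q
  obtain ⟨Q, C₂, H₂⟩ := hV (e / 4) q (by linarith)
  obtain ⟨r, hr, C₁, H₁⟩ := hT (e / 2) (by linarith) (Q + 1)
  obtain ⟨C₀, hC₀, H₀⟩ := momU (d := d) hd hρ β q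
  obtain ⟨N, hN⟩ := exists_nat_ge (max C₁ 1)
  have hNC : C₁ ≤ N := (le_max_left _ _).trans hN
  have hN1 : (1 : ℝ) ≤ N := (le_max_right _ _).trans hN
  have hN0 : (0 : ℝ) < N := by linarith
  obtain ⟨C, hC⟩ : ∃ C : ℝ, C = C₀ * ((N : ℝ) ^ (1 / 2 : ℝ)) ^ q + |C₂| ^ q + C₀ := ⟨_, rfl⟩
  have hC2 : 0 ≤ |C₂| ^ q := by positivity
  have hCN : 0 ≤ C₀ * ((N : ℝ) ^ (1 / 2 : ℝ)) ^ q := by positivity
  refine ⟨r, hr, C, fun t ht0 hh1 k hk n hn => ?_⟩
  obtain ⟨h', hdef⟩ : ∃ h' : Vec d, h' = h + k := ⟨_, rfl⟩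
  rw [← hdef]
  have hh2 : ‖h'‖ ≤ ‖h‖ + 1 := by
    have h1 : ‖h'‖ ≤ ‖h‖ + ‖k‖ := by
      rw [hdef]
      exact norm_add_le _ _
    have h2 : ‖(m : ℝ) • k‖ ≤ 1 := hk.1
    have h4 : (1 : ℝ) ≤ m := by exact_mod_cast hm
    rw [norm_smul, Real.norm_eq_abs, abs_of_nonneg (by linarith)] at h2
    have h5 : 0 ≤ ‖k‖ := norm_nonneg k
    have h6 : ‖k‖ ≤ m * ‖k‖ := le_mul_of_one_le_left h5 h4
    linarith
  have hn1 : (1 : ℝ) ≤ n := by exact_mod_cast hn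
  have hn0 : (0 : ℝ) < n := by linarith
  have hne : 1 ≤ (n : ℝ) ^ e := Real.one_le_rpow hn1 he.le
  have hny : 1 ≤ (n : ℝ) ^ (aX p x / 2) := Real.one_le_rpow hn1 (by linarith)
  obtain ⟨B, hB⟩ : ∃ B : ℝ, B = (n : ℝ) ^ (aX p x / 2) + Real.sqrt (n * t ^ (p - 1)) := ⟨_, rfl⟩
  have hs0 : 0 ≤ Real.sqrt (n * t ^ (p - 1)) := Real.sqrt_nonneg _
  have hB1 : 1 ≤ B := by
    rw [hB]
    linarith
  have hB0 : 0 ≤ B := by linarith
  rw [← hB]
  -- the crude bound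
  have hcr : ∫ η, |X β h' η n - A ρ β h' n| ^ q ∂(law d ρ) ≤
      C₀ * ((n : ℝ) ^ (1 / 2 : ℝ)) ^ q := by
    refine ((H₀ h' n hn).2).trans (le_of_eq ?_)
    rw [Real.rpow_mul hn0.le, Real.rpow_natCast]
  rcases le_or_gt n N with hnN | hnN
  · -- small `n`
    have h1 : (n : ℝ) ^ (1 / 2 : ℝ) ≤ (N : ℝ) ^ (1 / 2 : ℝ) :=
      Real.rpow_le_rpow hn0.le (by exact_mod_cast hnN) (by norm_num)
    have h2 : ((n : ℝ) ^ (1 / 2 : ℝ)) ^ q ≤ ((N : ℝ) ^ (1 / 2 : ℝ)) ^ q :=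
      pow_le_pow_left₀ (Real.rpow_nonneg hn0.le _) h1 q
    have h3 : 1 ≤ ((n : ℝ) ^ e * B) ^ q := one_le_pow₀ (one_le_mul_of_one_le_of_one_le hne hB1)
    have h4 : C₀ * ((N : ℝ) ^ (1 / 2 : ℝ)) ^ q ≤ C := by
      rw [hC]
      linarith
    have h5 : 0 ≤ C := hCN.trans h4
    calc ∫ η, |X β h' η n - A ρ β h' n| ^ q ∂(law d ρ)
        ≤ C₀ * ((n : ℝ) ^ (1 / 2 : ℝ)) ^ q := hcr
      _ ≤ C₀ * ((N : ℝ) ^ (1 / 2 : ℝ)) ^ q := mul_le_mul_of_nonneg_left h2 hC₀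
      _ ≤ C := h4
      _ ≤ C * ((n : ℝ) ^ e * B) ^ q := le_mul_of_one_le_right h5 h3
  · obtain ⟨W, hW⟩ : ∃ W : ℝ, W = (n : ℝ) ^ (e / 2) * (n * t ^ (p - 1) + (n : ℝ) ^ (aX p x)) :=
      ⟨_, rfl⟩
    have ha : 0 ≤ n * t ^ (p - 1) :=
      mul_nonneg hn0.le (Real.rpow_nonneg ht0.le _)
    have he2 : 1 ≤ (n : ℝ) ^ (e / 2) := Real.one_le_rpow hn1 (by linarith)
    have hx2 : 1 ≤ (n : ℝ) ^ (aX p x) := Real.one_le_rpow hn1 (by linarith)
    have hW1 : 1 ≤ W := by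
      rw [hW]
      exact one_le_mul_of_one_le_of_one_le he2 (by linarith)
    have hsq : Real.sqrt W ≤ (n : ℝ) ^ (e / 4) * B := by
      have e1 : Real.sqrt ((n : ℝ) ^ (e / 2)) = (n : ℝ) ^ (e / 4) := by
        rw [Real.sqrt_eq_rpow, ← Real.rpow_mul hn0.le]
        congr 1
        ring
      have e2 : Real.sqrt ((n : ℝ) ^ (aX p x)) = (n : ℝ) ^ (aX p x / 2) := by
        rw [Real.sqrt_eq_rpow, ← Real.rpow_mul hn0.le]
        congr 1
        ring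
      rw [hW, Real.sqrt_mul (Real.rpow_nonneg hn0.le _), e1, hB]
      refine mul_le_mul_of_nonneg_left ?_ (Real.rpow_nonneg hn0.le _)
      have h1 : Real.sqrt (n * t ^ (p - 1) + (n : ℝ) ^ (aX p x)) ≤
          Real.sqrt (n * t ^ (p - 1)) + Real.sqrt ((n : ℝ) ^ (aX p x)) := by
        rw [Real.sqrt_le_left (by positivity)]
        have h2 := Real.sq_sqrt ha
        have h3 := Real.sq_sqrt (show 0 ≤ (n : ℝ) ^ (aX p x) by linarith)
        have h4 : 0 ≤ Real.sqrt (n * t ^ (p - 1)) * Real.sqrt ((n : ℝ) ^ (aX p x)) := by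
          positivity
        rw [add_sq, h2, h3]
        linarith
      rw [e2] at h1
      linarith
    rcases le_or_gt W n with hWn | hWn
    · obtain ⟨u, hu, h1⟩ := H₁ t ht0 hh1 k hk n hn W (le_of_eq hW.symm)
      rw [← hdef] at h1
      have h2 : C₁ * (n : ℝ) ^ (-((Q + 1 : ℕ) : ℝ)) ≤ (n : ℝ) ^ (-(Q : ℝ)) := by
        have h3 : C₁ ≤ n := hNC.trans (by exact_mod_cast hnN.le)
        have h4 : (n : ℝ) * (n : ℝ) ^ (-((Q + 1 : ℕ) : ℝ)) = (n : ℝ) ^ (-(Q : ℝ)) := by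
          nth_rewrite 1 [← Real.rpow_one (n : ℝ)]
          rw [← Real.rpow_add hn0]
          congr 1
          push_cast
          ring
        rw [← h4]
        exact mul_le_mul_of_nonneg_right h3 (Real.rpow_nonneg hn0.le _)
      have h5 := H₂ h' hh2 u hu _ n hn W hW1 hWn (h1.trans h2)
      refine h5.trans ?_
      have h7 : Real.sqrt W * (n : ℝ) ^ (e / 4) ≤ (n : ℝ) ^ e * B := by
        calc Real.sqrt W * (n : ℝ) ^ (e / 4)
            ≤ ((n : ℝ) ^ (e / 4) * B) * (n : ℝ) ^ (e / 4) :=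
              mul_le_mul_of_nonneg_right hsq (Real.rpow_nonneg hn0.le _)
          _ = ((n : ℝ) ^ (e / 4) * (n : ℝ) ^ (e / 4)) * B := by ring
          _ ≤ (n : ℝ) ^ e * B := by
              refine mul_le_mul_of_nonneg_right ?_ hB0
              rw [← Real.rpow_add hn0]
              exact Real.rpow_le_rpow_of_exponent_le hn1 (by linarith)
      have h8 : (C₂ * Real.sqrt W * (n : ℝ) ^ (e / 4)) ^ q ≤ (|C₂| * ((n : ℝ) ^ e * B)) ^ q := by
        refine (le_abs_self _).trans ?_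
        rw [abs_pow, mul_assoc, abs_mul, abs_of_nonneg
          (mul_nonneg (Real.sqrt_nonneg W) (Real.rpow_nonneg hn0.le (e / 4)))]
        exact pow_le_pow_left₀ (mul_nonneg (abs_nonneg _) (mul_nonneg (Real.sqrt_nonneg _)
          (Real.rpow_nonneg hn0.le _))) (mul_le_mul_of_nonneg_left h7 (abs_nonneg _)) q
      refine h8.trans ?_
      rw [mul_pow]
      refine mul_le_mul_of_nonneg_right ?_ (by positivity)
      rw [hC]
      linarith
    · -- wide tube: the crude bound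
      have h1 : (n : ℝ) ^ (1 / 2 : ℝ) ≤ (n : ℝ) ^ e * B := by
        rw [← Real.sqrt_eq_rpow]
        refine (Real.sqrt_le_sqrt hWn.le).trans (hsq.trans ?_)
        refine mul_le_mul_of_nonneg_right ?_ hB0
        exact Real.rpow_le_rpow_of_exponent_le hn1 (by linarith)
      have h2 : ((n : ℝ) ^ (1 / 2 : ℝ)) ^ q ≤ ((n : ℝ) ^ e * B) ^ q :=
        pow_le_pow_left₀ (Real.rpow_nonneg hn0.le _) h1 q
      have h3 : C₀ ≤ C := by
        rw [hC]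
        linarith
      calc ∫ η, |X β h' η n - A ρ β h' n| ^ q ∂(law d ρ)
          ≤ C₀ * ((n : ℝ) ^ (1 / 2 : ℝ)) ^ q := hcr
        _ ≤ C₀ * ((n : ℝ) ^ e * B) ^ q := mul_le_mul_of_nonneg_left h2 hC₀
        _ ≤ C * ((n : ℝ) ^ e * B) ^ q := mul_le_mul_of_nonneg_right h3 (by positivity)

end Pool.Agent.W_7d29a1_H96.BooH80
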