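import Pool.Agent.W_7d29a1_H96.DefsH96
import Pool.Agent.W_7d29a1_V.FixL70
import Pool.Agent.W_7d29a1_V.DimF33

/-!
**The exponent of the free energy at a tilt with a good direction of order `p` at every scale** is
at most `1 / (p + 1)`, and the dimension of the set of the tilts with `χ > a / 2`: the end of the
bootstrap, from its steps `H1`, `H2`, `H3`, `H5`.
-/

namespace Pool.Agent.W_7d29a1_H96

open MeasureTheory ProbabilityTheory Filter Topology Pool.Agent.W_MP_7d29a1_pr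
  Pool.Agent.W_7d29a1_h46 Pool.Agent.W_7d29a1_h46u Pool.Agent.W_7d29a1_D2 Pool.Agent.W_7d29a1_V

variable {d : ℕ} {ρ : Measure ℝ} {β : ℝ}

/-- The moments along the orbit of `1 / 2`. -/
lemma flH_orb (a1 : H1 d ρ β) (a2 : H2 d ρ β) (a3 : H3 d ρ β) {h v : Vec d} {C₁ D p : ℝ}
    (hC₁ : 0 ≤ C₁) (hp : 1 < p)
    (hsub : ∀ k : Vec d, lam ρ β h + inner ℝ v k ≤ lam ρ β (h + k))
    (hG : GoodS (lam ρ β) h v C₁ D p) (hS : SlbU d ρ β (‖h‖ + 1)) (k : ℕ) :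
    FlH ρ β h v C₁ p (2 ^ k) (orb p k) := by
  induction k with
  | zero => exact a1 h v C₁ p _
  | succ k ih =>
    have hp0 : 0 < p := by linarith
    have h0 : 0 ≤ orb p k := le_trans (by positivity) (orb_mem hp k).1
    have h1 := a2 h v C₁ D p _ (2 ^ k) hC₁ Nat.one_le_two_pow hp hsub hG (orb_mem hp k).1
      (orb_mem hp k).2 ih
    have h2 := a3 h v C₁ p _ (2 * 2 ^ k) (Nat.succ_le_of_lt (by positivity)) hp h0 hS h1
    rw [pow_succ, mul_comm]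
    exact h2

/-- The moments at the tilt `h` itself. -/
theorem flF_of_flH {h v : Vec d} {C₁ p x y : ℝ} {m : ℕ} (hC₁ : 0 ≤ C₁) (hp : 1 < p) (hx : 0 ≤ x)
    (hxy : x < y) (H : FlH ρ β h v C₁ p m x) : FlF ρ β h y := by
  intro q
  obtain ⟨r, hr, C, hC⟩ := H (y - x) (by linarith) q
  refine ⟨|C| * 2 ^ q, fun n hn => ?_⟩
  have hn0 : (0 : ℝ) < n := by exact_mod_cast hn
  have hn1 : (1 : ℝ) ≤ n := by exact_mod_cast hn
  have hp1 : 0 < p - 1 := by linarith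
  set t : ℝ := min (r / 2) ((n : ℝ) ^ (-(1 / (p - 1)))) with ht
  have ht0 : 0 < t := lt_min (by linarith) (Real.rpow_pos_of_pos hn0 _)
  have htr : t < r := (min_le_left _ _).trans_lt (by linarith)
  have ht1 : t ^ (p - 1) ≤ (n : ℝ)⁻¹ := by
    calc t ^ (p - 1) ≤ ((n : ℝ) ^ (-(1 / (p - 1)))) ^ (p - 1) :=
          Real.rpow_le_rpow ht0.le (min_le_right _ _) hp1.le
      _ = (n : ℝ)⁻¹ := by
          rw [← Real.rpow_mul hn0.le, neg_mul, one_div, inv_mul_cancel₀ hp1.ne',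
            Real.rpow_neg_one]
  have hg : gap (lam ρ β) h v 0 = 0 := by simp [gap]
  have hF : Fam (lam ρ β) h v C₁ p m t 0 := by
    have h0 : 0 ≤ C₁ * t ^ p := mul_nonneg hC₁ (Real.rpow_nonneg ht0.le _)
    refine ⟨by simp, ?_, ?_⟩
    · rw [smul_zero, hg]
      exact h0
    · rw [smul_zero, neg_zero, hg]
      exact h0
  have h1 := hC t ht0 htr 0 hF n hn
  rw [add_zero] at h1
  have h2 : Real.sqrt (n * t ^ (p - 1)) ≤ (n : ℝ) ^ x := by
    have h3 : (n : ℝ) * t ^ (p - 1) ≤ 1 := by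
      calc (n : ℝ) * t ^ (p - 1) ≤ n * (n : ℝ)⁻¹ := mul_le_mul_of_nonneg_left ht1 hn0.le
        _ = 1 := mul_inv_cancel₀ hn0.ne'
    calc Real.sqrt (n * t ^ (p - 1)) ≤ Real.sqrt 1 := Real.sqrt_le_sqrt h3
      _ = 1 := Real.sqrt_one
      _ ≤ (n : ℝ) ^ x := Real.one_le_rpow hn1 hx
  have h4 : 0 ≤ (n : ℝ) ^ (y - x) := Real.rpow_nonneg hn0.le _
  have h5 : 0 ≤ (n : ℝ) ^ (y - x) * ((n : ℝ) ^ x + Real.sqrt (n * t ^ (p - 1))) := by positivity
  have h3 : (n : ℝ) ^ (y - x) * ((n : ℝ) ^ x + Real.sqrt (n * t ^ (p - 1))) ≤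
      2 * (n : ℝ) ^ y := by
    have h6 : (n : ℝ) ^ (y - x) * (n : ℝ) ^ x = (n : ℝ) ^ y := by
      rw [← Real.rpow_add hn0, sub_add_cancel]
    have h7 := mul_le_mul_of_nonneg_left h2 h4
    rw [mul_add]
    linarith
  refine h1.trans ?_
  calc C * ((n : ℝ) ^ (y - x) * ((n : ℝ) ^ x + Real.sqrt (n * t ^ (p - 1)))) ^ q
      ≤ |C| * ((n : ℝ) ^ (y - x) * ((n : ℝ) ^ x + Real.sqrt (n * t ^ (p - 1)))) ^ q :=
        mul_le_mul_of_nonneg_right (le_abs_self C) (pow_nonneg h5 q)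
    _ ≤ |C| * (2 * (n : ℝ) ^ y) ^ q :=
        mul_le_mul_of_nonneg_left (pow_le_pow_left₀ h5 h3 q) (abs_nonneg C)
    _ = |C| * 2 ^ q * (n : ℝ) ^ (y * q) := by
        rw [mul_pow, ← Real.rpow_natCast ((n : ℝ) ^ y) q, ← Real.rpow_mul hn0.le]
        ring

/-- Good directions from the second differences. -/
lemma goodS_of {L : Vec d → ℝ} {h v : Vec d} {C δ D p : ℝ} (hδ : 0 < δ)
    (hsub : ∀ k : Vec d, L h + inner ℝ v k ≤ L (h + k))
    (H : ∀ r : ℝ, 0 < r → r ≤ δ → ∃ u : Vec d, Dir D u ∧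
      L (h + r • u) + L (h - r • u) - 2 * L h ≤ C * r ^ p) :
    GoodS L h v |C| D p := by
  refine ⟨δ, hδ, fun r hr hrδ => ?_⟩
  obtain ⟨u, hu, hU⟩ := H r hr hrδ
  have h1 := hsub (r • u)
  have h2 := hsub (-(r • u))
  have h3 : C * r ^ p ≤ |C| * r ^ p :=
    mul_le_mul_of_nonneg_right (le_abs_self C) (Real.rpow_nonneg hr.le _)
  rw [sub_eq_add_neg h (r • u)] at hU
  rw [inner_neg_right] at h2
  refine ⟨u, hu, ?_, ?_⟩
  · unfold gap
    linarith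
  · unfold gap
    rw [inner_neg_right]
    linarith

section
variable [IsProbabilityMeasure ρ] {Ω : Type*} [MeasurableSpace Ω] {μ : Measure Ω}
  [IsProbabilityMeasure μ] {ω : ℕ × Site d → Ω → ℝ}

/-- **The exponent of the free energy at a tilt with a good direction of order `p` at every
scale.** -/
theorem chi_H (hd : 0 < d) (hω : IID μ ρ ω) (hρ : EM ρ) (a1 : H1 d ρ β) (a2 : H2 d ρ β)
    (a3 : H3 d ρ β) {h v : Vec d} (hS : SlbU d ρ β (‖h‖ + 1)) {C₁ D p : ℝ} (hC₁ : 0 ≤ C₁)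
    (hp : 1 < p) (hsub : ∀ k : Vec d, lam ρ β h + inner ℝ v k ≤ lam ρ β (h + k))
    (hG : GoodS (lam ρ β) h v C₁ D p) : chiF μ β ω h ≤ 1 / (p + 1) := by
  have hp0 : 0 < p := by linarith
  have hx0 : 0 < 1 / (p + 1) := by positivity
  refine le_of_forall_gt_imp_ge_of_dense fun y hy => ?_
  obtain ⟨k, hk⟩ := orb_lim hp (x := (1 / (p + 1) + y) / 2) (by linarith)
  have h1 : FlF ρ β h y := flF_of_flH hC₁ hp (hx0.le.trans (orb_mem hp k).1) (by linarith)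
    (flH_orb a1 a2 a3 hC₁ hp hsub hG hS k)
  exact csInf_le ⟨0, fun y hy => hy.1.le⟩ ((mem_chiSetF hd hω hρ h y).2 ⟨by linarith, h1⟩)

/-- **The dimension of the tilts with `χ > a / 2`.** -/
theorem dim_chi_of (hd : 0 < d) (hω : IID μ ρ ω) (hρ : EM ρ) (a1 : H1 d ρ β) (a2 : H2 d ρ β)
    (a3 : H3 d ρ β) (a5 : H5 d) (hS : ∀ R : ℝ, SlbU d ρ β R) {a : ℝ} (ha : 0 < a) (ha1 : a < 1) :
    dimH {h : Vec d | ¬ chiF μ β ω h ≤ a / 2} ≤ ENNReal.ofReal (d * (2 / a - 2)) := by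
  have hp : 1 < 2 / a - 1 := by
    have : 2 < 2 / a := by
      rw [lt_div_iff₀ ha]
      linarith
    linarith
  have h1 := a5 (lam ρ β) (lam_convex hd hρ β) (lam_lip33 hd hρ β) (2 / a - 1) hp
  have e1 : (d : ℝ) * (2 / a - 1 - 1) = d * (2 / a - 2) := by ring
  rw [e1] at h1
  refine le_trans (dimH_mono ?_) h1
  rintro h hh ⟨C, δ, hδ, H⟩
  apply hh
  obtain ⟨v, hv⟩ := DimP33.exists_sub (lam_convex hd hρ β) h
  have hsub : ∀ k : Vec d, lam ρ β h + inner ℝ v k ≤ lam ρ β (h + k) := by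
    intro k
    have := hv (h + k)
    rwa [add_sub_cancel_left] at this
  have h2 := chi_H (μ := μ) (ω := ω) hd hω hρ a1 a2 a3 (hS _) (abs_nonneg C) hp hsub
    (goodS_of hδ hsub H)
  refine h2.trans (le_of_eq ?_)
  field_simp
  ring

/-- **The exponent of the free energy is smaller than `1 / 2` outside of a set of tilts of dimension
zero.** -/
theorem dim_half_of (hd : 0 < d) (hω : IID μ ρ ω) (hρ : EM ρ) (a1 : H1 d ρ β) (a2 : H2 d ρ β)
    (a3 : H3 d ρ β) (a5 : H5 d) (hS : ∀ R : ℝ, SlbU d ρ β R) :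
    dimH {h : Vec d | ¬ chiF μ β ω h < 1 / 2} = 0 := by
  have hd0 : (0 : ℝ) < d := by exact_mod_cast hd
  refine le_antisymm (le_of_forall_gt_imp_ge_of_dense fun b hb => ?_) bot_le
  obtain ⟨s, hs1, hs2⟩ := ENNReal.lt_iff_exists_nnreal_btwn.1 hb
  have hs : (0 : ℝ) < s := by
    have : (0 : ENNReal) < s := hs1
    exact_mod_cast this
  refine le_trans ?_ hs2.le
  have hpos : (0 : ℝ) < 2 + (s : ℝ) / d := by positivity
  have ha0 : (0 : ℝ) < 2 / (2 + (s : ℝ) / d) := by positivity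
  have ha1 : 2 / (2 + (s : ℝ) / d) < 1 := by
    rw [div_lt_one hpos]
    have : 0 < (s : ℝ) / d := by positivity
    linarith
  have h1 := dim_chi_of (μ := μ) (ω := ω) hd hω hρ a1 a2 a3 a5 hS ha0 ha1
  have e : (d : ℝ) * (2 / (2 / (2 + (s : ℝ) / d)) - 2) = s := by
    field_simp
    ring
  rw [e, ENNReal.ofReal_coe_nnreal] at h1
  refine le_trans (dimH_mono ?_) h1
  intro h hh h2
  apply hh
  linarith

end

end Pool.Agent.W_7d29a1_H96
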