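import Pool.Agent.W_7d29a1_V.DefsL70

/-!
The bootstrap at a tilt `h` with a good direction at EVERY SCALE: for every small `r` there is a
direction `u`, depending on `r`, with `gap (± r u) ≤ C r ^ p`. Definitions and frozen statements.
-/

namespace Pool.Agent.W_7d29a1_H96

open MeasureTheory ProbabilityTheory Filter Topology Pool.Agent.W_MP_7d29a1_pr
  Pool.Agent.W_7d29a1_h46 Pool.Agent.W_7d29a1_h46u Pool.Agent.W_7d29a1_D2 Pool.Agent.W_7d29a1_V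

/-- A direction of size between `1` and `D`. -/
def Dir {d : ℕ} (D : ℝ) (u : Vec d) : Prop := ‖u‖ ≤ D ∧ ∃ j : Fin d, 1 ≤ |u j|

/-- For every small scale `r` there is a good direction. -/
def GoodS {d : ℕ} (L : Vec d → ℝ) (h v : Vec d) (C D p : ℝ) : Prop :=
  ∃ δ : ℝ, 0 < δ ∧ ∀ r : ℝ, 0 < r → r ≤ δ → ∃ u : Vec d, Dir D u ∧
    gap L h v (r • u) ≤ C * r ^ p ∧ gap L h v (-(r • u)) ≤ C * r ^ p

/-- The family of the tilts `h + k` at the scale `t`. -/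
def Fam {d : ℕ} (L : Vec d → ℝ) (h v : Vec d) (C p : ℝ) (m : ℕ) (t : ℝ) (k : Vec d) : Prop :=
  ‖(m : ℝ) • k‖ ≤ 1 ∧ gap L h v ((m : ℝ) • k) ≤ C * t ^ p ∧
    gap L h v (-((m : ℝ) • k)) ≤ C * t ^ p

/-- The moments at the tilts `h + k` of the family at the scale `t` are those of a variable of size
`n ^ x + (n t ^ (p - 1)) ^ (1 / 2)`, up to `n ^ e`. -/
def FlH {d : ℕ} (ρ : Measure ℝ) (β : ℝ) (h v : Vec d) (C₁ p : ℝ) (m : ℕ) (x : ℝ) : Prop :=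
  ∀ e : ℝ, 0 < e → ∀ q : ℕ, ∃ r : ℝ, 0 < r ∧ ∃ C : ℝ, ∀ t : ℝ, 0 < t → t < r → ∀ k : Vec d,
    Fam (lam ρ β) h v C₁ p m t k → ∀ n : ℕ, 1 ≤ n →
      ∫ η, |X β (h + k) η n - A ρ β (h + k) n| ^ q ∂(law d ρ) ≤
        C * ((n : ℝ) ^ e * ((n : ℝ) ^ x + Real.sqrt (n * t ^ (p - 1)))) ^ q

/-- The polymer at the tilts `h + k` of the family at the scale `t` stays in a slab of width
`n ^ e (n t ^ (p - 1) + n ^ (1 + (x - 1) (p - 1) / p))`. -/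
def TubH {d : ℕ} (ρ : Measure ℝ) (β : ℝ) (h v : Vec d) (C₁ p : ℝ) (m : ℕ) (x : ℝ) : Prop :=
  ∀ e : ℝ, 0 < e → ∀ Q : ℕ, ∃ r : ℝ, 0 < r ∧ ∃ C : ℝ, ∀ t : ℝ, 0 < t → t < r → ∀ k : Vec d,
    Fam (lam ρ β) h v C₁ p m t k → ∀ n : ℕ, 1 ≤ n → ∀ W : ℝ,
      (n : ℝ) ^ e * (n * t ^ (p - 1) + (n : ℝ) ^ aX p x) ≤ W →
        ∃ u : Vec d, (∃ j : Fin d, 1 ≤ |u j|) ∧
          ∫ η, (1 - PolT β (h + k) η (slb d n u (inner ℝ v u) W)) ∂(law d ρ) ≤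
            C * (n : ℝ) ^ (-(Q : ℝ))

/-- The fluctuations of the free energy are at most the square root of the width of the slab,
uniformly in the direction. -/
def SlbU (d : ℕ) (ρ : Measure ℝ) (β R : ℝ) : Prop :=
  ∀ (ε : ℝ) (q : ℕ), 0 < ε → ∃ (Q : ℕ) (C : ℝ), ∀ h : Vec d, ‖h‖ ≤ R →
  ∀ u : Vec d, (∃ j : Fin d, 1 ≤ |u j|) →
  ∀ (s : ℝ) (n : ℕ), 1 ≤ n → ∀ W : ℝ, 1 ≤ W → W ≤ n →
    ∫ η, (1 - PolT β h η (slb d n u s W)) ∂(law d ρ) ≤ (n : ℝ) ^ (-(Q : ℝ)) →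
    ∫ η, |X β h η n - A ρ β h n| ^ q ∂(law d ρ) ≤ (C * Real.sqrt W * (n : ℝ) ^ ε) ^ q

/-! ### Frozen statements -/

/-- H1: the start. -/
def H1 (d : ℕ) (ρ : Measure ℝ) (β : ℝ) : Prop :=
  ∀ (h v : Vec d) (C₁ p : ℝ) (m : ℕ), FlH ρ β h v C₁ p m (1 / 2)

/-- H2: the slabs. -/
def H2 (d : ℕ) (ρ : Measure ℝ) (β : ℝ) : Prop :=
  ∀ (h v : Vec d) (C₁ D p x : ℝ) (m : ℕ), 0 ≤ C₁ → 1 ≤ m → 1 < p →
    (∀ k : Vec d, lam ρ β h + inner ℝ v k ≤ lam ρ β (h + k)) →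
    GoodS (lam ρ β) h v C₁ D p → 1 / (p + 1) ≤ x → x ≤ 1 / 2 →
    FlH ρ β h v C₁ p m x → TubH ρ β h v C₁ p (2 * m) x

/-- H3: one step. -/
def H3 (d : ℕ) (ρ : Measure ℝ) (β : ℝ) : Prop :=
  ∀ (h v : Vec d) (C₁ p x : ℝ) (m : ℕ), 1 ≤ m → 1 < p → 0 ≤ x → SlbU d ρ β (‖h‖ + 1) →
    TubH ρ β h v C₁ p m x → FlH ρ β h v C₁ p m (aX p x / 2)

/-- H5: the exceptional set, for a convex Lipschitz function: the points without a good direction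
at arbitrarily small scales. -/
def H5 (d : ℕ) : Prop :=
  ∀ (L : Vec d → ℝ), ConvexOn ℝ Set.univ L → (∀ x y : Vec d, |L x - L y| ≤ 1 * ‖x - y‖) →
    ∀ p : ℝ, 1 < p → dimH {h : Vec d | ¬ ∃ C δ : ℝ, 0 < δ ∧ ∀ r : ℝ, 0 < r → r ≤ δ →
      ∃ u : Vec d, Dir (d : ℝ) u ∧ L (h + r • u) + L (h - r • u) - 2 * L h ≤ C * r ^ p} ≤
        ENNReal.ofReal (d * (p - 1))

end Pool.Agent.W_7d29a1_H96
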