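import Pool.Agent.W_7d29a1_H96.Geo46

/-!
**The exceptional set** of a convex Lipschitz function on `ℝ^d`: the points at which, for every
constant `C`, at arbitrarily small scales `r` the second difference is larger than `C r ^ p` in
ALL directions. Its Hausdorff dimension is at most `d (p - 1)`.
-/

namespace Pool.Agent.W_7d29a1_H96.DimH33

open MeasureTheory Filter Topology Set Metric
open Pool.Agent.W_7d29a1_h46 Pool.Agent.W_7d29a1_H96
open scoped ENNReal NNReal

variable {d : ℕ}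

/-- The upper limit of sets covered by `C 2 ^ (j α)` balls of radius `c 2 ^ (-j)`. -/
lemma limsup_zero {S : Set (Vec d)} {B : ℕ → Set (Vec d)} {C c α : ℝ} (hC : 0 ≤ C) (hc : 0 ≤ c)
    (hS : ∀ h ∈ S, ∀ J : ℕ, ∃ j, J ≤ j ∧ h ∈ B j)
    (hcov : ∀ j : ℕ, ∃ P : Finset (Vec d), (P.card : ℝ) ≤ C * ((1 / 2 : ℝ) ^ j) ^ (-α) ∧
      B j ⊆ ⋃ x ∈ P, closedBall x (c * (1 / 2) ^ j))
    {s : ℝ} (hs : α < s) (hs0 : 0 < s) : μH[s] S = 0 := by
  have hx : (0 : ℝ) < 1 / 2 := by norm_num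
  choose P hP1 hP2 using hcov
  set ρ : ℝ := (1 / 2 : ℝ) ^ (s - α) with hρ
  have hρ0 : 0 < ρ := Real.rpow_pos_of_pos hx _
  have hρ1 : ρ < 1 := Real.rpow_lt_one hx.le (by norm_num) (by linarith)
  set D : ℝ := C * (2 * c) ^ s with hD
  have hD0 : 0 ≤ D := mul_nonneg hC (Real.rpow_nonneg (by linarith) _)
  set T : ∀ J : ℕ, (Σ j : ℕ, {x // x ∈ P (J + j)}) → Set (Vec d) := fun J q =>
    closedBall q.2.1 (c * (1 / 2) ^ (J + q.1)) with hT
  have hdiam : ∀ (J : ℕ) (q : Σ j : ℕ, {x // x ∈ P (J + j)}),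
      Metric.ediam (T J q) ≤ ENNReal.ofReal (2 * c * (1 / 2) ^ (J + q.1)) := by
    intro J q
    refine Metric.ediam_le_of_forall_dist_le fun x hx y hy => ?_
    have h1 : dist x q.2.1 ≤ c * (1 / 2) ^ (J + q.1) := hx
    have h2 : dist y q.2.1 ≤ c * (1 / 2) ^ (J + q.1) := hy
    have h3 := dist_triangle_right x y q.2.1
    linarith
  have hlev : ∀ j : ℕ, ((P j).card : ℝ) * (2 * c * (1 / 2) ^ j : ℝ) ^ s ≤ D * ρ ^ j := by
    intro j
    have h1 := hP1 j
    have e1 : (2 * c * (1 / 2) ^ j : ℝ) ^ s = (2 * c : ℝ) ^ s * ((1 / 2 : ℝ) ^ j) ^ s :=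
      Real.mul_rpow (by linarith) (by positivity)
    have e2 : ((1 / 2 : ℝ) ^ j) ^ (-α) * ((1 / 2 : ℝ) ^ j) ^ s = ρ ^ j := by
      rw [hρ, ← Real.rpow_add (by positivity), ← Real.rpow_natCast (1 / 2 : ℝ) j,
        ← Real.rpow_mul hx.le, ← Real.rpow_natCast ((1 / 2 : ℝ) ^ (s - α)) j, ← Real.rpow_mul hx.le]
      congr 1
      ring
    rw [e1]
    have h0 : 0 ≤ (2 * c : ℝ) ^ s := Real.rpow_nonneg (by linarith) _
    calc ((P j).card : ℝ) * ((2 * c : ℝ) ^ s * ((1 / 2 : ℝ) ^ j) ^ s)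
        ≤ (C * ((1 / 2 : ℝ) ^ j) ^ (-α)) * ((2 * c : ℝ) ^ s * ((1 / 2 : ℝ) ^ j) ^ s) :=
          mul_le_mul_of_nonneg_right h1 (by positivity)
      _ = C * (2 * c : ℝ) ^ s * (((1 / 2 : ℝ) ^ j) ^ (-α) * ((1 / 2 : ℝ) ^ j) ^ s) := by ring
      _ = D * ρ ^ j := by rw [e2, hD]
  have hle := Measure.hausdorffMeasure_le_liminf_tsum (l := atTop) s S
    (fun J : ℕ => ENNReal.ofReal (2 * c * (1 / 2 : ℝ) ^ J)) ?_ T ?_ ?_
  · refine le_antisymm (hle.trans ?_) (bot_le)
    have hbound : ∀ J : ℕ, (∑' q : (Σ j : ℕ, {x // x ∈ P (J + j)}),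
        Metric.ediam (T J q) ^ s) ≤ ENNReal.ofReal (D * ρ ^ J) * ENNReal.ofReal (1 - ρ)⁻¹ := by
      intro J
      rw [ENNReal.tsum_sigma']
      have h1 : ∀ j : ℕ, (∑' i : {x // x ∈ P (J + j)},
          Metric.ediam (T J ⟨j, i⟩) ^ s) ≤ ENNReal.ofReal (D * ρ ^ J * ρ ^ j) := by
        intro j
        rw [tsum_fintype]
        have h2 : ∀ i : {x // x ∈ P (J + j)}, Metric.ediam (T J ⟨j, i⟩) ^ s ≤
            ENNReal.ofReal ((2 * c * (1 / 2 : ℝ) ^ (J + j)) ^ s) := by
          intro i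
          rw [← ENNReal.ofReal_rpow_of_nonneg (by positivity) hs0.le]
          exact ENNReal.rpow_le_rpow (hdiam J ⟨j, i⟩) hs0.le
        refine (Finset.sum_le_sum fun i _ => h2 i).trans ?_
        rw [Finset.sum_const, Finset.card_univ,
          Fintype.card_coe, nsmul_eq_mul, ← ENNReal.ofReal_natCast,
          ← ENNReal.ofReal_mul (Nat.cast_nonneg _)]
        refine ENNReal.ofReal_le_ofReal ?_
        have h3 := hlev (J + j)
        rw [pow_add ρ J j, ← mul_assoc] at h3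
        exact h3
      refine (ENNReal.tsum_le_tsum h1).trans ?_
      have hKJ : 0 ≤ D * ρ ^ J := mul_nonneg hD0 (pow_nonneg hρ0.le _)
      simp only [ENNReal.ofReal_mul hKJ]
      rw [ENNReal.tsum_mul_left, ← ENNReal.ofReal_tsum_of_nonneg (fun j => pow_nonneg hρ0.le j)
        (summable_geometric_of_lt_one hρ0.le hρ1), tsum_geometric_of_lt_one hρ0.le hρ1]
    have hlim : Tendsto (fun J : ℕ => ENNReal.ofReal (D * ρ ^ J) * ENNReal.ofReal (1 - ρ)⁻¹)
        atTop (𝓝 0) := by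
      have h1 : Tendsto (fun J : ℕ => D * ρ ^ J) atTop (𝓝 0) := by
        have := (tendsto_pow_atTop_nhds_zero_of_lt_one hρ0.le hρ1).const_mul D
        rwa [mul_zero] at this
      have h2 := ENNReal.tendsto_ofReal h1
      rw [ENNReal.ofReal_zero] at h2
      have h3 := ENNReal.Tendsto.mul_const h2 (b := ENNReal.ofReal (1 - ρ)⁻¹)
        (Or.inr ENNReal.ofReal_ne_top)
      rwa [zero_mul] at h3
    refine (liminf_le_liminf (Eventually.of_forall hbound)).trans ?_
    rw [hlim.liminf_eq]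
  · have h1 : Tendsto (fun J : ℕ => 2 * c * (1 / 2 : ℝ) ^ J) atTop (𝓝 0) := by
      have := (tendsto_pow_atTop_nhds_zero_of_lt_one hx.le
        (show (1 / 2 : ℝ) < 1 by norm_num)).const_mul (2 * c)
      rwa [mul_zero] at this
    have h2 := ENNReal.tendsto_ofReal h1
    rwa [ENNReal.ofReal_zero] at h2
  · refine Eventually.of_forall fun J q => (hdiam J q).trans ?_
    refine ENNReal.ofReal_le_ofReal ?_
    have : (1 / 2 : ℝ) ^ (J + q.1) ≤ (1 / 2) ^ J :=
      pow_le_pow_of_le_one (by norm_num) (by norm_num) (Nat.le_add_right _ _)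
    exact mul_le_mul_of_nonneg_left this (by linarith)
  · refine Eventually.of_forall fun J => ?_
    intro h hE
    obtain ⟨j, hj, hmem⟩ := hS h hE J
    obtain ⟨j', rfl⟩ := Nat.exists_eq_add_of_le hj
    have h1 := hP2 (J + j') hmem
    simp only [mem_iUnion, exists_prop] at h1
    obtain ⟨x, hx1, hx2⟩ := h1
    rw [mem_iUnion]
    exact ⟨⟨j', ⟨x, hx1⟩⟩, hx2⟩

/-- The dimension of the upper limit. -/
lemma limsup_dim {S : Set (Vec d)} {B : ℕ → Set (Vec d)} {C c α : ℝ} (hC : 0 ≤ C) (hc : 0 ≤ c)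
    (hα : 0 ≤ α) (hS : ∀ h ∈ S, ∀ J : ℕ, ∃ j, J ≤ j ∧ h ∈ B j)
    (hcov : ∀ j : ℕ, ∃ P : Finset (Vec d), (P.card : ℝ) ≤ C * ((1 / 2 : ℝ) ^ j) ^ (-α) ∧
      B j ⊆ ⋃ x ∈ P, closedBall x (c * (1 / 2) ^ j)) : dimH S ≤ ENNReal.ofReal α := by
  refine le_of_forall_gt_imp_ge_of_dense fun a ha => ?_
  obtain ⟨s, hs1, hs2⟩ := ENNReal.lt_iff_exists_nnreal_btwn.1 ha
  have hs : α < (s : ℝ) := by
    rw [← ENNReal.ofReal_coe_nnreal] at hs1
    exact (ENNReal.ofReal_lt_ofReal_iff_of_nonneg hα).1 hs1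
  refine le_trans ?_ hs2.le
  refine dimH_le_of_hausdorffMeasure_ne_top ?_
  rw [limsup_zero hC hc hS hcov hs (by linarith)]
  exact ENNReal.zero_ne_top

/-- The points at which all second differences at the scale `r` are larger than `m`. -/
def Bk (L : Vec d → ℝ) (m r : ℝ) : Set (Vec d) :=
  {h | ∀ u : Vec d, Dir (d : ℝ) u → m < L (h + r • u) + L (h - r • u) - 2 * L h}

/-- The number of separated points at which all second differences are large. -/
lemma pack (hd : 0 < d) {L : Vec d → ℝ} (hL : ConvexOn ℝ univ L)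
    (hK : ∀ x y, |L x - L y| ≤ 1 * ‖x - y‖) {m r : ℝ} (hm : 0 < m) (hr : 0 < r)
    (P : Finset (Vec d)) (hP : ∀ x ∈ P, x ∈ Bk L m r)
    (hsep : ∀ x ∈ P, ∀ y ∈ P, x ≠ y → 2 * (2 * d * Real.sqrt d * r) ≤ dist x y) :
    (P.card : ℝ) ≤ (2 * d * Real.sqrt d * r / m) ^ d := by
  have hd' : (0 : ℝ) < d := by exact_mod_cast hd
  obtain ⟨R, hR⟩ : ∃ R : ℝ, R = 2 * d * Real.sqrt d * r := ⟨_, rfl⟩
  have hR0 : 0 < R := by
    rw [hR]
    have := Real.sqrt_pos.2 hd'
    positivity
  have hρ0 : 0 < m / R := div_pos hm hR0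
  have hw : ∀ x : Vec d, ∃ w : Vec d, x ∈ P → ∀ k : Vec d, ‖k‖ = R →
      m + inner ℝ w k ≤ L (x + k) - L x := by
    intro x
    by_cases hx : x ∈ P
    · obtain ⟨w, h⟩ := geo46 hd hL hr (m := m) (fun u hu => (hP x hx u hu).le)
      rw [← hR] at h
      exact ⟨w, fun _ k hk => h k hk.ge⟩
    · exact ⟨0, fun h => absurd h hx⟩
  choose w hw using hw
  -- a slope of the ball is strict on the sphere
  have hstr : ∀ x ∈ P, ∀ z ∈ ball (w x) (m / R), ∀ k : Vec d, ‖k‖ = R →
      inner ℝ z k < L (x + k) - L x := by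
    intro x hx z hz k hk
    have h1 := hw x hx k hk
    have h2 : inner ℝ z k = inner ℝ (w x) k + inner ℝ (z - w x) k := by
      rw [inner_sub_left]
      ring
    have h3 : inner ℝ (z - w x) k < m := by
      refine (real_inner_le_norm _ _).trans_lt ?_
      rw [hk]
      have h4 : ‖z - w x‖ < m / R := by rwa [← dist_eq_norm]
      rwa [lt_div_iff₀ hR0] at h4
    linarith
  have hdisj : (P : Set (Vec d)).PairwiseDisjoint fun x => ball (w x) (m / R) := by
    intro x hx y hy hxy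
    rw [Function.onFun, Set.disjoint_left]
    intro z hz1 hz2
    have h1 := disj46 hL hR0 hR0 (hstr x hx z hz1) (hstr y hy z hz2)
    have h2 := hsep x hx y hy hxy
    rw [dist_eq_norm, ← hR] at h2
    linarith
  have hsub : ∀ x ∈ P, ball (w x) (m / R) ⊆ ball (0 : Vec d) 1 := by
    intro x hx
    obtain ⟨e, he1, he2⟩ : ∃ e : Vec d, ‖e‖ = 1 ∧ inner ℝ (w x) e = ‖w x‖ := by
      by_cases h0 : w x = 0
      · refine ⟨EuclideanSpace.single ⟨0, hd⟩ 1, by simp, ?_⟩
        rw [h0, inner_zero_left, norm_zero]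
      · have h1 : 0 < ‖w x‖ := norm_pos_iff.2 h0
        refine ⟨(‖w x‖)⁻¹ • w x, ?_, ?_⟩
        · rw [norm_smul, norm_inv, norm_norm, inv_mul_cancel₀ h1.ne']
        · rw [inner_smul_right, real_inner_self_eq_norm_sq]
          field_simp
    have h1 : ‖R • e‖ = R := by
      rw [norm_smul, he1, mul_one, Real.norm_of_nonneg hR0.le]
    have h2 := hw x hx (R • e) h1
    have h3 := hK (x + R • e) x
    rw [add_sub_cancel_left, h1, inner_smul_right, he2] at *
    have h4 := (le_abs_self _).trans h3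
    have h5 : ‖w x‖ + m / R ≤ 1 := by
      rw [← sub_nonneg]
      have : (1 - (‖w x‖ + m / R)) * R = 1 * R - R * ‖w x‖ - m := by
        field_simp
        ring
      have h6 : 0 ≤ (1 - (‖w x‖ + m / R)) * R := by
        rw [this]
        linarith
      exact nonneg_of_mul_nonneg_left h6 hR0
    intro z hz
    rw [mem_ball_zero_iff]
    have h6 : ‖z - w x‖ < m / R := by rwa [← dist_eq_norm]
    have h7 := norm_add_le (z - w x) (w x)
    rw [sub_add_cancel] at h7
    linarith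
  have hvol : ∑ x ∈ P, volume (ball (w x) (m / R)) ≤ volume (ball (0 : Vec d) 1) := by
    rw [← measure_biUnion_finset hdisj fun x _ => measurableSet_ball]
    exact measure_mono (iUnion₂_subset hsub)
  have hball : ∀ x, volume (ball (w x) (m / R)) =
      ENNReal.ofReal ((m / R) ^ d) * volume (ball (0 : Vec d) 1) := by
    intro x
    rw [Measure.addHaar_ball_of_pos _ _ hρ0, finrank_euclideanSpace, Fintype.card_fin]
  have hv0 : volume (ball (0 : Vec d) 1) ≠ 0 := (measure_ball_pos _ _ one_pos).ne'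
  have hv1 : volume (ball (0 : Vec d) 1) ≠ ∞ := measure_ball_lt_top.ne
  simp only [hball] at hvol
  rw [Finset.sum_const, nsmul_eq_mul, ← mul_assoc] at hvol
  have h1 : (P.card : ℝ≥0∞) * ENNReal.ofReal ((m / R) ^ d) ≤ 1 := by
    by_contra hcon
    push Not at hcon
    have := ENNReal.mul_lt_mul_left hv0 hv1 hcon
    rw [one_mul] at this
    exact absurd hvol (not_le.2 this)
  rw [← ENNReal.ofReal_natCast, ← ENNReal.ofReal_mul (Nat.cast_nonneg _), ← ENNReal.ofReal_one,
    ENNReal.ofReal_le_ofReal_iff zero_le_one] at h1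
  rw [← hR]
  have h2 : (R / m) ^ d * (m / R) ^ d = 1 := by
    rw [← mul_pow]
    field_simp
    simp
  have h3 : 0 < (m / R) ^ d := by positivity
  rw [← h2] at h1
  exact le_of_mul_le_mul_right h1 h3

/-- A finite set of centres. -/
lemma cover (hd : 0 < d) {L : Vec d → ℝ} (hL : ConvexOn ℝ univ L)
    (hK : ∀ x y, |L x - L y| ≤ 1 * ‖x - y‖) {m r : ℝ} (hm : 0 < m) (hr : 0 < r) :
    ∃ P : Finset (Vec d), (P.card : ℝ) ≤ (2 * d * Real.sqrt d * r / m) ^ d ∧
      Bk L m r ⊆ ⋃ x ∈ P, closedBall x (2 * (2 * d * Real.sqrt d * r)) := by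
  classical
  by_contra hcon
  push Not at hcon
  have key : ∀ N : ℕ, ∃ P : Finset (Vec d), P.card = N ∧ (∀ x ∈ P, x ∈ Bk L m r) ∧
      (∀ x ∈ P, ∀ y ∈ P, x ≠ y → 2 * (2 * d * Real.sqrt d * r) ≤ dist x y) := by
    intro N
    induction N with
    | zero => exact ⟨∅, by simp, by simp, by simp⟩
    | succ N ih =>
      obtain ⟨P, h1, h2, h3⟩ := ih
      have h4 := hcon P (pack hd hL hK hm hr P h2 h3)
      obtain ⟨y, hy1, hy2⟩ := Set.not_subset.1 h4
      simp only [mem_iUnion, mem_closedBall, exists_prop, not_exists, not_and, not_le] at hy2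
      have hyP : y ∉ P := by
        intro hy
        have := hy2 y hy
        rw [dist_self] at this
        have h0 : (0 : ℝ) ≤ 2 * (2 * d * Real.sqrt d * r) := by positivity
        linarith
      refine ⟨insert y P, by rw [Finset.card_insert_of_notMem hyP, h1], ?_, ?_⟩
      · intro x hx
        rcases Finset.mem_insert.1 hx with rfl | hx
        · exact hy1
        · exact h2 x hx
      · intro x hx z hz hxz
        rcases Finset.mem_insert.1 hx with hx1 | hx1
        · rcases Finset.mem_insert.1 hz with hz1 | hz1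
          · exact absurd (hx1.trans hz1.symm) hxz
          · rw [hx1]
            exact (hy2 z hz1).le
        · rcases Finset.mem_insert.1 hz with hz1 | hz1
          · rw [hz1, dist_comm]
            exact (hy2 x hx1).le
          · exact h3 x hx1 z hz1 hxz
  obtain ⟨N, hN⟩ := exists_nat_gt ((2 * d * Real.sqrt d * r / m) ^ d)
  obtain ⟨P, h1, h2, h3⟩ := key N
  have h4 := pack hd hL hK hm hr P h2 h3
  rw [h1] at h4
  linarith

/-- The second differences of a convex function increase with the scale. -/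
lemma sd_mono {L : Vec d → ℝ} (hL : ConvexOn ℝ univ L) (h u : Vec d) {r R : ℝ} (hr : 0 < r)
    (hrR : r ≤ R) : L (h + r • u) + L (h - r • u) - 2 * L h ≤
      L (h + R • u) + L (h - R • u) - 2 * L h := by
  have hR : 0 < R := hr.trans_le hrR
  obtain ⟨t, ht⟩ : ∃ t : ℝ, t = r / R := ⟨_, rfl⟩
  have ht0 : 0 ≤ t := by
    rw [ht]
    positivity
  have ht1 : t ≤ 1 := by
    rw [ht]
    exact (div_le_one hR).2 hrR
  have htR : t * R = r := by
    rw [ht]
    field_simp
  have h1 := hL.2 (mem_univ h) (mem_univ (h + R • u)) (sub_nonneg.2 ht1) ht0 (by ring)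
  have h2 := hL.2 (mem_univ h) (mem_univ (h - R • u)) (sub_nonneg.2 ht1) ht0 (by ring)
  have h3 := hL.2 (mem_univ (h + R • u)) (mem_univ (h - R • u)) (show (0 : ℝ) ≤ 1 / 2 by norm_num)
    (show (0 : ℝ) ≤ 1 / 2 by norm_num) (by norm_num)
  have e1 : (1 - t) • h + t • (h + R • u) = h + r • u := by
    rw [smul_add, smul_smul, htR, sub_smul, one_smul]
    abel
  have e2 : (1 - t) • h + t • (h - R • u) = h - r • u := by
    rw [smul_sub, smul_smul, htR, sub_smul, one_smul]
    abel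
  have e3 : (1 / 2 : ℝ) • (h + R • u) + (1 / 2 : ℝ) • (h - R • u) = h := by
    rw [← smul_add, add_add_sub_cancel, ← two_smul ℝ h, smul_smul]
    norm_num
  rw [e1] at h1
  rw [e2] at h2
  rw [e3] at h3
  simp only [smul_eq_mul] at h1 h2 h3
  nlinarith

end Pool.Agent.W_7d29a1_H96.DimH33

namespace Pool.Agent.W_7d29a1_H96

open MeasureTheory Filter Topology Set Metric
open Pool.Agent.W_7d29a1_h46
open scoped ENNReal NNReal

/-- **The exceptional set has dimension at most `d (p - 1)`.** -/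
theorem h5 (d : ℕ) : H5 d := by
  intro L hL hK p hp
  rcases Nat.eq_zero_or_pos d with hd | hd
  · subst hd
    rw [Set.Subsingleton.dimH_zero (Set.subsingleton_of_subsingleton)]
    exact bot_le
  have hx : (0 : ℝ) < 1 / 2 := by norm_num
  have hd' : (0 : ℝ) < d := by exact_mod_cast hd
  refine DimH33.limsup_dim (B := fun j => DimH33.Bk L (((1 / 2 : ℝ) ^ j) ^ p) ((1 / 2) ^ j))
    (C := (2 * d * Real.sqrt d) ^ d) (c := 2 * (2 * d * Real.sqrt d)) (by positivity)
    (by positivity) (mul_nonneg hd'.le (by linarith)) ?_ ?_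
  · intro h hh J
    rw [mem_setOf_eq] at hh
    push Not at hh
    obtain ⟨r, hr0, hr1, hr2⟩ := hh ((2 : ℝ) ^ p) ((1 / 2) ^ J) (by positivity)
    have hJ1 : ((1 : ℝ) / 2) ^ J ≤ 1 := pow_le_one₀ (by norm_num) (by norm_num)
    obtain ⟨j, hj1, hj2⟩ := exists_nat_pow_near_of_lt_one hr0 (hr1.trans hJ1) hx
      (show (1 / 2 : ℝ) < 1 by norm_num)
    have hJj : J ≤ j := by
      by_contra hlt
      push Not at hlt
      have : ((1 : ℝ) / 2) ^ J ≤ (1 / 2) ^ (j + 1) :=
        pow_le_pow_of_le_one (by norm_num) (by norm_num) hlt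
      linarith
    refine ⟨j, hJj, fun u hu => ?_⟩
    have h1 := hr2 u hu
    have h2 := DimH33.sd_mono hL h u hr0 hj2
    have h3 : ((1 / 2 : ℝ) ^ j) ^ p ≤ (2 : ℝ) ^ p * r ^ p := by
      rw [← Real.mul_rpow (by norm_num) hr0.le]
      refine Real.rpow_le_rpow (by positivity) ?_ (by linarith)
      rw [pow_succ] at hj1
      linarith
    linarith
  · intro j
    have hr : (0 : ℝ) < (1 / 2) ^ j := by positivity
    obtain ⟨P, h1, h2⟩ := DimH33.cover hd hL hK (Real.rpow_pos_of_pos hr p) hr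
    refine ⟨P, h1.trans (le_of_eq ?_), ?_⟩
    · rw [mul_div_assoc, mul_pow]
      congr 1
      rw [← Real.rpow_one_sub' hr.le (by linarith), ← Real.rpow_natCast, ← Real.rpow_mul hr.le]
      congr 1
      ring
    · rw [mul_assoc 2 (2 * (d : ℝ) * Real.sqrt d)]
      exact h2

end Pool.Agent.W_7d29a1_H96
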