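import Pool.Agent.W_7d29a1_H96.DefsH96

/-!
The geometry of the exceptional tilts: when every direction is bad at the scale `r`, the convex
function lies above an affine function on a sphere of radius comparable to `r`, by a definite
amount.
-/

namespace Pool.Agent.W_7d29a1_H96

open MeasureTheory Filter Topology Set Pool.Agent.W_7d29a1_h46

variable {d : ℕ}

/-- The Euclidean norm is at most the sum of the absolute values. -/
lemma norm_le_l1_46 (k : Vec d) : ‖k‖ ≤ ∑ j, |k j| := by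
  rw [EuclideanSpace.norm_eq]
  have h1 : ∑ j, ‖k j‖ ^ 2 ≤ (∑ j, |k j|) ^ 2 := by
    have := Finset.sum_sq_le_sq_sum_of_nonneg (s := Finset.univ) (f := fun j => |k j|)
      (fun j _ => abs_nonneg _)
    simpa [Real.norm_eq_abs] using this
  calc √(∑ j, ‖k j‖ ^ 2) ≤ √((∑ j, |k j|) ^ 2) := Real.sqrt_le_sqrt h1
    _ = ∑ j, |k j| := Real.sqrt_sq (Finset.sum_nonneg fun j _ => abs_nonneg _)

/-- A vector of norm `√d` is a direction. -/
lemma dir46 (hd : 0 < d) {u : Vec d} (hu : ‖u‖ = √(d : ℝ)) : Dir (d : ℝ) u := by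
  have hd1 : (1 : ℝ) ≤ d := by exact_mod_cast hd
  constructor
  · rw [hu, Real.sqrt_le_left (by linarith)]
    nlinarith
  · by_contra hcon
    push Not at hcon
    have h1 : ‖u‖ ^ 2 = ∑ j, |u j| ^ 2 := by
      rw [EuclideanSpace.norm_sq_eq]
      simp [Real.norm_eq_abs]
    have h2 : ∑ j, |u j| ^ 2 < ∑ _j : Fin d, (1 : ℝ) := by
      have : Nonempty (Fin d) := ⟨⟨0, hd⟩⟩
      refine Finset.sum_lt_sum_of_nonempty Finset.univ_nonempty fun j _ => ?_
      have := hcon j
      have h0 := abs_nonneg (u j)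
      nlinarith
    rw [hu, Real.sq_sqrt (by linarith)] at h1
    simp only [Finset.sum_const, Finset.card_univ, Fintype.card_fin, nsmul_eq_mul, mul_one] at h2
    rw [← h1] at h2
    exact lt_irrefl _ h2

/-- A convex combination of far points which is centred gives a good direction. -/
lemma comb46 (hd : 0 < d) {φ : Vec d → ℝ} (hφ : ConvexOn ℝ univ φ) (h0 : φ 0 = 0) {r m : ℝ}
    (hr : 0 < r) (hbad : ∀ u : Vec d, Dir (d : ℝ) u → m ≤ φ (r • u) + φ (-(r • u))) {ι : Type}
    [Fintype ι] (w : ι → ℝ) (k : ι → Vec d) (hw : ∀ i, 0 ≤ w i) (hw1 : ∑ i, w i = 1)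
    (hk : ∀ i, 2 * d * √(d : ℝ) * r ≤ ‖k i‖) (hs : ∑ i, w i • k i = 0) :
    m ≤ ∑ i, w i * φ (k i) := by
  classical
  have hd1 : (1 : ℝ) ≤ d := by exact_mod_cast hd
  have hdp : (0 : ℝ) < d := by linarith
  have hsd : 0 < √(d : ℝ) := Real.sqrt_pos.2 hdp
  -- a coordinate
  have hj : ∃ j : Fin d, 2 * √(d : ℝ) * r ≤ ∑ i, w i * |k i j| := by
    by_contra hcon
    push Not at hcon
    have h1 : ∑ j : Fin d, ∑ i, w i * |k i j| < ∑ _j : Fin d, 2 * √(d : ℝ) * r := by
      have : Nonempty (Fin d) := ⟨⟨0, hd⟩⟩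
      exact Finset.sum_lt_sum_of_nonempty Finset.univ_nonempty fun j _ => hcon j
    rw [Finset.sum_comm] at h1
    have h2 : ∑ i, w i * (2 * d * √(d : ℝ) * r) ≤ ∑ i, ∑ j : Fin d, w i * |k i j| := by
      refine Finset.sum_le_sum fun i _ => ?_
      rw [← Finset.mul_sum]
      exact mul_le_mul_of_nonneg_left ((hk i).trans (norm_le_l1_46 _)) (hw i)
    rw [← Finset.sum_mul, hw1] at h2
    simp only [Finset.sum_const, Finset.card_univ, Fintype.card_fin, nsmul_eq_mul] at h1
    nlinarith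
  obtain ⟨j, hj⟩ := hj
  set a : Vec d := ∑ i, w i • (if 0 ≤ k i j then k i else 0) with ha
  have hb : -a = ∑ i, w i • (if 0 ≤ k i j then 0 else k i) := by
    have e : a + ∑ i, w i • (if 0 ≤ k i j then 0 else k i) = ∑ i, w i • k i := by
      rw [ha, ← Finset.sum_add_distrib]
      refine Finset.sum_congr rfl fun i _ => ?_
      split_ifs <;> simp
    rw [neg_eq_iff_add_eq_zero, e, hs]
  have haj : a j = (∑ i, w i * |k i j|) / 2 := by
    have e1 : a j = ∑ i, w i * (if 0 ≤ k i j then k i j else 0) := by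
      rw [ha]
      simp only [WithLp.ofLp_sum, WithLp.ofLp_smul, Finset.sum_apply, Pi.smul_apply, smul_eq_mul]
      refine Finset.sum_congr rfl fun i _ => ?_
      split_ifs <;> simp
    have e2 : ∑ i, w i * k i j = 0 := by
      have := congrArg (fun v : Vec d => v j) hs
      simpa using this
    have e3 : ∑ i, w i * |k i j| = 2 * (∑ i, w i * (if 0 ≤ k i j then k i j else 0)) -
        ∑ i, w i * k i j := by
      rw [Finset.mul_sum, ← Finset.sum_sub_distrib]
      refine Finset.sum_congr rfl fun i _ => ?_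
      split_ifs with h
      · rw [abs_of_nonneg h]
        ring
      · rw [abs_of_neg (not_le.1 h)]
        ring
    rw [e1, e3, e2]
    ring
  have han : √(d : ℝ) * r ≤ ‖a‖ := by
    have h1 : |a j| ≤ ‖a‖ := by
      have := PiLp.norm_apply_le a j
      simpa [Real.norm_eq_abs] using this
    have h2 : √(d : ℝ) * r ≤ a j := by
      rw [haj]
      linarith
    exact h2.trans ((le_abs_self _).trans h1)
  have ha0 : 0 < ‖a‖ := lt_of_lt_of_le (by positivity) han
  -- Jensen
  have J1 : φ a ≤ ∑ i, w i * (if 0 ≤ k i j then φ (k i) else 0) := by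
    have := hφ.map_sum_le (t := Finset.univ) (w := w)
      (p := fun i => if 0 ≤ k i j then k i else 0) (fun i _ => hw i) hw1 (fun i _ => mem_univ _)
    refine this.trans (le_of_eq (Finset.sum_congr rfl fun i _ => ?_))
    split_ifs
    · rfl
    · simp [h0]
  have J2 : φ (-a) ≤ ∑ i, w i * (if 0 ≤ k i j then 0 else φ (k i)) := by
    rw [hb]
    have := hφ.map_sum_le (t := Finset.univ) (w := w)
      (p := fun i => if 0 ≤ k i j then 0 else k i) (fun i _ => hw i) hw1 (fun i _ => mem_univ _)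
    refine this.trans (le_of_eq (Finset.sum_congr rfl fun i _ => ?_))
    split_ifs
    · simp [h0]
    · rfl
  have J3 : φ a + φ (-a) ≤ ∑ i, w i * φ (k i) := by
    refine (add_le_add J1 J2).trans (le_of_eq ?_)
    rw [← Finset.sum_add_distrib]
    refine Finset.sum_congr rfl fun i _ => ?_
    split_ifs <;> ring
  -- the scale
  obtain ⟨t, ht⟩ : ∃ t : ℝ, t = √(d : ℝ) * r / ‖a‖ := ⟨_, rfl⟩
  have ht0 : 0 ≤ t := by rw [ht]; positivity
  have ht1 : t ≤ 1 := by
    rw [ht, div_le_one ha0]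
    exact han
  have S0 : 0 ≤ φ a + φ (-a) := by
    have := hφ.2 (mem_univ a) (mem_univ (-a)) (show (0 : ℝ) ≤ 1 / 2 by norm_num)
      (show (0 : ℝ) ≤ 1 / 2 by norm_num) (by norm_num)
    have e : (1 / 2 : ℝ) • a + (1 / 2 : ℝ) • (-a) = 0 := by
      rw [smul_neg, add_neg_cancel]
    rw [e, h0] at this
    simp only [smul_eq_mul] at this
    linarith
  have sc : ∀ b : Vec d, φ (t • b) ≤ t * φ b := by
    intro b
    have := hφ.2 (mem_univ b) (mem_univ 0) ht0 (show (0 : ℝ) ≤ 1 - t by linarith) (by ring)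
    rw [smul_zero, add_zero, h0] at this
    simpa using this
  have hdir : Dir (d : ℝ) ((√(d : ℝ) / ‖a‖) • a) := by
    refine dir46 hd ?_
    rw [norm_smul, Real.norm_of_nonneg (by positivity), div_mul_cancel₀ _ ha0.ne']
  have hru : r • ((√(d : ℝ) / ‖a‖) • a) = t • a := by
    rw [smul_smul, ht]
    congr 1
    ring
  have h1 := hbad _ hdir
  rw [hru, ← smul_neg] at h1
  have h2 := sc a
  have h3 := sc (-a)
  nlinarith

/-- **The geometry of a bad scale.** -/
theorem geo46 (hd : 0 < d) {L : Vec d → ℝ} (hL : ConvexOn ℝ univ L) {h : Vec d} {r m : ℝ}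
    (hr : 0 < r) (hbad : ∀ u : Vec d, Dir (d : ℝ) u → m ≤ L (h + r • u) + L (h - r • u) - 2 * L h) :
    ∃ w : Vec d, ∀ k : Vec d, 2 * d * √(d : ℝ) * r ≤ ‖k‖ → m + inner ℝ w k ≤ L (h + k) - L h := by
  have hd1 : (1 : ℝ) ≤ d := by exact_mod_cast hd
  have hdp : (0 : ℝ) < d := by linarith
  have hsd : 0 < √(d : ℝ) := Real.sqrt_pos.2 hdp
  obtain ⟨R, hR⟩ : ∃ R : ℝ, R = 2 * d * √(d : ℝ) * r := ⟨_, rfl⟩
  have hR0 : 0 < R := by rw [hR]; positivity
  obtain ⟨φ, hφd⟩ : ∃ φ : Vec d → ℝ, φ = fun k => L (h + k) - L h := ⟨_, rfl⟩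
  have hφ : ConvexOn ℝ univ φ := by
    refine ⟨convex_univ, fun x _ y _ a b ha hb hab => ?_⟩
    have h1 := hL.2 (mem_univ (h + x)) (mem_univ (h + y)) ha hb hab
    have e : a • (h + x) + b • (h + y) = h + (a • x + b • y) := by
      rw [smul_add, smul_add, add_add_add_comm, ← add_smul, hab, one_smul]
    rw [e] at h1
    rw [hφd]
    simp only [smul_eq_mul] at h1 ⊢
    have e2 : a * (L (h + x) - L h) + b * (L (h + y) - L h) =
        a * L (h + x) + b * L (h + y) - (a + b) * L h := by ring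
    rw [e2, hab, one_mul]
    linarith
  have hφ0 : φ 0 = 0 := by rw [hφd]; simp
  have hφc : Continuous φ := by
    have := hφ.continuousOn isOpen_univ
    rwa [continuousOn_univ] at this
  have hbad' : ∀ u : Vec d, Dir (d : ℝ) u → m ≤ φ (r • u) + φ (-(r • u)) := by
    intro u hu
    have := hbad u hu
    rw [hφd]
    simp only [← sub_eq_add_neg]
    linarith
  set U : Set (Vec d × ℝ) := {z | R < ‖z.1‖ ∧ φ z.1 < z.2} with hU
  have hUo : IsOpen U := by
    rw [hU]
    exact (isOpen_lt continuous_const continuous_fst.norm).inter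
      (isOpen_lt (hφc.comp continuous_fst) continuous_snd)
  have hnot : ((0 : Vec d), m) ∉ convexHull ℝ U := by
    intro hmem
    obtain ⟨ι, _, w, z, hw, hw1, hz, hs⟩ := mem_convexHull_iff_exists_fintype.1 hmem
    have e1 : ∑ i, w i • (z i).1 = 0 := by
      have := congrArg Prod.fst hs
      simpa [Prod.fst_sum] using this
    have e2 : ∑ i, w i * (z i).2 = m := by
      have := congrArg Prod.snd hs
      simpa [Prod.snd_sum] using this
    have h1 := comb46 hd hφ hφ0 hr hbad' w (fun i => (z i).1) hw hw1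
      (fun i => by rw [← hR]; exact (hz i).1.le) e1
    have h2 : ∑ i, w i * φ (z i).1 < ∑ i, w i * (z i).2 := by
      have hex : ∃ i, 0 < w i := by
        by_contra hcon
        push Not at hcon
        have : ∑ i, w i ≤ 0 := Finset.sum_nonpos fun i _ => hcon i
        linarith
      obtain ⟨i, hi⟩ := hex
      refine Finset.sum_lt_sum (fun i _ => mul_le_mul_of_nonneg_left (hz i).2.le (hw i))
        ⟨i, Finset.mem_univ i, mul_lt_mul_of_pos_left (hz i).2 hi⟩
    linarith
  obtain ⟨f, hf⟩ := geometric_hahn_banach_point_open (convex_convexHull ℝ U) hUo.convexHull hnot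
  have hfU : ∀ k : Vec d, R < ‖k‖ → ∀ y : ℝ, φ k < y → f (0, m) < f (k, y) := fun k hk y hy =>
    hf _ (subset_convexHull ℝ U ⟨hk, hy⟩)
  obtain ⟨c, hc⟩ : ∃ c : ℝ, c = f (0, 1) := ⟨_, rfl⟩
  have hdec : ∀ (k : Vec d) (y : ℝ), f (k, y) = f (k, 0) + y * c := by
    intro k y
    have e : ((k, y) : Vec d × ℝ) = (k, 0) + y • ((0 : Vec d), (1 : ℝ)) := by
      ext <;> simp
    rw [e, map_add, map_smul, hc, smul_eq_mul]
  have hneg : ∀ k : Vec d, f (-k, 0) = - f (k, 0) := by
    intro k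
    have e : ((-k, 0) : Vec d × ℝ) = -((k, 0) : Vec d × ℝ) := by
      ext <;> simp
    rw [e, map_neg]
  have hf00 : f ((0 : Vec d), (0 : ℝ)) = 0 := by
    have : ((0 : Vec d), (0 : ℝ)) = 0 := rfl
    rw [this, map_zero]
  -- a far vector
  obtain ⟨k0, hk0⟩ : ∃ k0 : Vec d, R < ‖k0‖ := by
    refine ⟨EuclideanSpace.single (⟨0, hd⟩ : Fin d) (R + 1), ?_⟩
    rw [PiLp.norm_single, Real.norm_of_nonneg (by linarith)]
    linarith
  have hcpos : 0 < c := by
    have g : ∀ y : ℝ, max (φ k0) (φ (-k0)) < y → 2 * (m * c) < 2 * (y * c) := by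
      intro y hy
      have h1 := hfU k0 hk0 y (lt_of_le_of_lt (le_max_left _ _) hy)
      have h2 := hfU (-k0) (by rwa [norm_neg]) y (lt_of_le_of_lt (le_max_right _ _) hy)
      rw [hdec, hdec k0 y, hf00] at h1
      rw [hdec, hdec (-k0) y, hf00, hneg] at h2
      linarith
    have h3 := g (max (max (φ k0) (φ (-k0))) m + 1)
      (by linarith [le_max_left (max (φ k0) (φ (-k0))) m])
    have h4 := le_max_right (max (φ k0) (φ (-k0))) m
    by_contra hcon
    push Not at hcon
    nlinarith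
  -- the slope
  set f1 : StrongDual ℝ (Vec d) := f.comp (ContinuousLinearMap.inl ℝ (Vec d) ℝ) with hf1
  have hf1a : ∀ k : Vec d, f1 k = f (k, 0) := fun k => by simp [hf1]
  set w : Vec d := -(c⁻¹ • (InnerProductSpace.toDual ℝ (Vec d)).symm f1) with hw
  have hwk : ∀ k : Vec d, inner ℝ w k = -(c⁻¹ * f (k, 0)) := by
    intro k
    rw [hw, inner_neg_left, inner_smul_left, InnerProductSpace.toDual_symm_apply, hf1a]
    simp
  have main : ∀ k : Vec d, R < ‖k‖ → m + inner ℝ w k ≤ φ k := by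
    intro k hk
    refine le_of_forall_gt_imp_ge_of_dense fun y hy => ?_
    have h1 := hfU k hk y hy
    rw [hdec, hdec k y, hf00] at h1
    rw [hwk]
    have h2 : c * (m + -(c⁻¹ * f (k, 0))) < c * y := by
      have e : c * (m + -(c⁻¹ * f (k, 0))) = m * c - f (k, 0) := by
        field_simp
        ring
      rw [e]
      linarith
    exact (lt_of_mul_lt_mul_left h2 hcpos.le).le
  refine ⟨w, fun k hk => ?_⟩
  have hk' : R ≤ ‖k‖ := by rwa [hR]
  have hlim1 : Tendsto (fun t : ℝ => m + inner ℝ w (t • k)) (𝓝[>] 1) (𝓝 (m + inner ℝ w k)) := by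
    have : Continuous fun t : ℝ => m + inner ℝ w (t • k) := by fun_prop
    have h2 := this.tendsto 1
    simp only [one_smul] at h2
    exact h2.mono_left nhdsWithin_le_nhds
  have hlim2 : Tendsto (fun t : ℝ => φ (t • k)) (𝓝[>] 1) (𝓝 (φ k)) := by
    have : Continuous fun t : ℝ => φ (t • k) := hφc.comp (by fun_prop)
    have h2 := this.tendsto 1
    simp only [one_smul] at h2
    exact h2.mono_left nhdsWithin_le_nhds
  have h3 : m + inner ℝ w k ≤ φ k := by
    refine le_of_tendsto_of_tendsto hlim1 hlim2 ?_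
    filter_upwards [self_mem_nhdsWithin] with t ht
    have ht1 : (1 : ℝ) < t := ht
    refine main _ ?_
    rw [norm_smul, Real.norm_of_nonneg (by linarith)]
    nlinarith
  rw [hφd] at h3
  exact h3

/-- Two tilts which share a slope that lies strictly below on spheres around them are close. -/
theorem disj46 {L : Vec d → ℝ} (hL : ConvexOn ℝ univ L) {h₁ h₂ w : Vec d} {R₁ R₂ : ℝ}
    (hR₁ : 0 < R₁) (hR₂ : 0 < R₂) (h1 : ∀ k : Vec d, ‖k‖ = R₁ → inner ℝ w k < L (h₁ + k) - L h₁)
    (h2 : ∀ k : Vec d, ‖k‖ = R₂ → inner ℝ w k < L (h₂ + k) - L h₂) : ‖h₁ - h₂‖ < R₁ + R₂ := by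
  by_contra hcon
  push Not at hcon
  have key : ∀ (a b : Vec d) (R : ℝ), 0 < R → R < ‖b - a‖ →
      (∀ k : Vec d, ‖k‖ = R → inner ℝ w k < L (a + k) - L a) →
      L a - inner ℝ w a < L b - inner ℝ w b := by
    intro a b R hR hab hk
    have hab0 : 0 < ‖b - a‖ := hR.trans hab
    obtain ⟨t, ht⟩ : ∃ t : ℝ, t = R / ‖b - a‖ := ⟨_, rfl⟩
    have ht0 : 0 < t := by rw [ht]; positivity
    have ht1 : t < 1 := by rw [ht, div_lt_one hab0]; exact hab
    have h3 := hk (t • (b - a)) (by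
      rw [norm_smul, Real.norm_of_nonneg ht0.le, ht, div_mul_cancel₀ _ hab0.ne'])
    have h4 := hL.2 (mem_univ a) (mem_univ b) (show (0 : ℝ) ≤ 1 - t by linarith) ht0.le (by ring)
    have e : (1 - t) • a + t • b = a + t • (b - a) := by
      rw [sub_smul, one_smul, smul_sub]
      abel
    rw [e] at h4
    rw [inner_smul_right, inner_sub_right] at h3
    simp only [smul_eq_mul] at h4
    have h5 : t * (inner ℝ w b - inner ℝ w a) < t * (L b - L a) := by nlinarith
    have h6 := lt_of_mul_lt_mul_left h5 ht0.le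
    linarith
  have k1 := key h₁ h₂ R₁ hR₁ (by rw [norm_sub_rev]; linarith) h1
  have k2 := key h₂ h₁ R₂ hR₂ (by linarith) h2
  linarith

/-- **The slope ball of a bad scale.** Every slope near `w` lies strictly below on the sphere. -/
theorem ball46 (hd : 0 < d) {L : Vec d → ℝ} (hL : ConvexOn ℝ univ L)
    (hK : ∀ x y : Vec d, |L x - L y| ≤ 1 * ‖x - y‖) {h : Vec d} {r m : ℝ} (hr : 0 < r)
    (hm : 0 ≤ m)
    (hbad : ∀ u : Vec d, Dir (d : ℝ) u → m ≤ L (h + r • u) + L (h - r • u) - 2 * L h) :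
    ∃ w : Vec d, ‖w‖ ≤ 1 ∧ ∀ w' : Vec d, ‖w' - w‖ < m / (2 * d * √(d : ℝ) * r) →
      ∀ k : Vec d, ‖k‖ = 2 * d * √(d : ℝ) * r → inner ℝ w' k < L (h + k) - L h := by
  have hd1 : (1 : ℝ) ≤ d := by exact_mod_cast hd
  have hdp : (0 : ℝ) < d := by linarith
  have hsd : 0 < √(d : ℝ) := Real.sqrt_pos.2 hdp
  obtain ⟨w, hw⟩ := geo46 hd hL hr hbad
  obtain ⟨R, hR⟩ : ∃ R : ℝ, R = 2 * d * √(d : ℝ) * r := ⟨_, rfl⟩
  have hR0 : 0 < R := by rw [hR]; positivity
  rw [← hR] at hw ⊢
  refine ⟨w, ?_, fun w' hw' k hk => ?_⟩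
  · rcases eq_or_ne w 0 with h0 | h0
    · rw [h0, norm_zero]
      norm_num
    · have hw0 : 0 < ‖w‖ := norm_pos_iff.2 h0
      have e1 : ‖(R / ‖w‖) • w‖ = R := by
        rw [norm_smul, Real.norm_of_nonneg (by positivity), div_mul_cancel₀ _ hw0.ne']
      have h1 := hw ((R / ‖w‖) • w) e1.ge
      have h2 := hK (h + (R / ‖w‖) • w) h
      rw [add_sub_cancel_left, e1, one_mul] at h2
      rw [inner_smul_right, real_inner_self_eq_norm_sq] at h1
      have e2 : R / ‖w‖ * ‖w‖ ^ 2 = R * ‖w‖ := by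
        field_simp
      rw [e2] at h1
      have h3 := (abs_le.1 h2).2
      have h4 : R * ‖w‖ ≤ R * 1 := by linarith
      exact le_of_mul_le_mul_left h4 hR0
  · have h1 := hw k hk.ge
    have h2 : inner ℝ w' k = inner ℝ w k + inner ℝ (w' - w) k := by
      rw [inner_sub_left]
      ring
    have h3 : inner ℝ (w' - w) k ≤ ‖w' - w‖ * R := by
      rw [← hk]
      exact real_inner_le_norm _ _
    have h4 : ‖w' - w‖ * R < m := by
      rwa [lt_div_iff₀ hR0] at hw'
    linarith

end Pool.Agent.W_7d29a1_H96
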