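import Pool.Agent.W_7d29a1_V.AeA7
import Pool.Agent.W_7d29a1_H96.DefsH96

/-!
The bootstrap with a good direction at every scale, part (a): the nonrandom fluctuations and the
probability of the good event at the tilts of the family of a scale.
-/

namespace Pool.Agent.W_7d29a1_H96

open MeasureTheory ProbabilityTheory Filter Topology Pool.Agent.W_MP_7d29a1_pr
  Pool.Agent.W_7d29a1_h46 Pool.Agent.W_7d29a1_h46u Pool.Agent.W_7d29a1_D2 Pool.Agent.W_7d29a1_V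
  Pool.Agent.W_7d29a1_V.Ae7

variable {d : ℕ} {ρ : Measure ℝ} [IsProbabilityMeasure ρ]

/-- Doubling with the modulus. -/
theorem doubleH (hd : 0 < d) (hρ : EM ρ) {β : ℝ} {h v : Vec d} {C₁ p x : ℝ} {l : ℕ} (hx : 0 ≤ x)
    (hF : FlH ρ β h v C₁ p l x) {ε : ℝ} (hε : 0 < ε) :
    ∃ r : ℝ, 0 < r ∧ ∃ C : ℝ, 0 ≤ C ∧ ∀ b : ℝ, 0 < b → b < r → ∀ z : Vec d,
      Fam (lam ρ β) h v C₁ p l b z → ∀ n : ℕ, 1 ≤ n →
      A ρ β (h + z) (n + n) ≤ 2 * A ρ β (h + z) n + C * ((n : ℝ) ^ ε * md x (b ^ (p - 1)) n) := by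
  obtain ⟨Q, hQ⟩ := exists_nat_ge ((d : ℝ) / (ε / 2))
  obtain ⟨r, hr, C, hC⟩ := hF (ε / 2) (by linarith) (Q + 1)
  refine ⟨r, hr, 1 + 3 ^ d * |C|, by positivity, fun b hbp hbr z hz n hn => ?_⟩
  have hn0 : (0 : ℝ) < n := by exact_mod_cast hn
  have hn1 : (1 : ℝ) ≤ n := by exact_mod_cast hn
  obtain ⟨M, hM⟩ : ∃ M : ℝ, M = md x (b ^ (p - 1)) n := ⟨_, rfl⟩
  have hM1 : 1 ≤ M := by
    rw [hM]
    exact md_one_le hx hn
  have hM0 : 0 < M := by linarith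
  obtain ⟨y, hy⟩ : ∃ y : ℝ, y = (n : ℝ) ^ (ε / 2) := ⟨_, rfl⟩
  have hy0 : 0 < y := by
    rw [hy]
    exact Real.rpow_pos_of_pos hn0 _
  have hyy : (n : ℝ) ^ ε = y * y := by
    rw [hy, ← Real.rpow_add hn0]
    congr 1
    ring
  have hb : ∫ η, |X β (h + z) η n - A ρ β (h + z) n| ^ (Q + 1) ∂(law d ρ) ≤ |C| * (y * M) ^ (Q + 1) := by
    refine (hC b hbp hbr z hz n hn).trans ?_
    have h1 : (n : ℝ) ^ (ε / 2) * ((n : ℝ) ^ x + Real.sqrt (n * b ^ (p - 1))) = y * M := by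
      rw [hy, hM]
      rfl
    rw [h1]
    exact mul_le_mul_of_nonneg_right (le_abs_self C) (by positivity)
  have hw : 0 < y * y * M := by positivity
  have h2 := doubleG hd hρ hn hw hb
  have h3 : (3 * (n : ℝ)) ^ d * (|C| * (y * M) ^ (Q + 1) / (y * y * M) ^ Q) ≤
      3 ^ d * |C| * (y * y * M) := by
    have e1 : |C| * (y * M) ^ (Q + 1) / (y * y * M) ^ Q = |C| * (y * M) / y ^ Q := by
      have e2 : (y * y * M) ^ Q = y ^ Q * (y * M) ^ Q := by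
        rw [← mul_pow]
        ring
      rw [e2, pow_succ]
      field_simp
    rw [e1, mul_pow]
    have e3 : (n : ℝ) ^ d ≤ y ^ Q * y := by
      have e4 : (n : ℝ) ^ d ≤ y ^ Q := by
        rw [hy, ← Real.rpow_natCast, ← Real.rpow_natCast, ← Real.rpow_mul hn0.le]
        refine Real.rpow_le_rpow_of_exponent_le hn1 ?_
        rw [div_le_iff₀ (by linarith)] at hQ
        linarith
      have e5 : 1 ≤ y := by
        rw [hy]
        exact Real.one_le_rpow hn1 (by linarith)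
      calc (n : ℝ) ^ d ≤ y ^ Q := e4
        _ ≤ y ^ Q * y := le_mul_of_one_le_right (by positivity) e5
    have e6 : 3 ^ d * (n : ℝ) ^ d * (|C| * (y * M) / y ^ Q) =
        3 ^ d * |C| * (y * M) * ((n : ℝ) ^ d / y ^ Q) := by ring
    rw [e6]
    have e7 : (n : ℝ) ^ d / y ^ Q ≤ y := by
      rw [div_le_iff₀ (by positivity)]
      linarith
    calc 3 ^ d * |C| * (y * M) * ((n : ℝ) ^ d / y ^ Q) ≤ 3 ^ d * |C| * (y * M) * y :=
          mul_le_mul_of_nonneg_left e7 (by positivity)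
      _ = 3 ^ d * |C| * (y * y * M) := by ring
  rw [hyy, ← hM]
  linarith

/-- **(a)** The nonrandom fluctuations with the modulus. -/
theorem rateH (hd : 0 < d) (hρ : EM ρ) {β : ℝ} {h v : Vec d} {C₁ p x : ℝ} {l : ℕ} (hx : 0 ≤ x)
    (hx1 : x ≤ 1 / 2) (hF : FlH ρ β h v C₁ p l x) {ε : ℝ} (hε : 0 < ε) (hε1 : ε < 1 / 2) :
    ∃ r : ℝ, 0 < r ∧ ∃ C : ℝ, 0 ≤ C ∧ ∀ b : ℝ, 0 < b → b < r → ∀ z : Vec d,
      Fam (lam ρ β) h v C₁ p l b z → ∀ n : ℕ, 1 ≤ n →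
      n * lam ρ β (h + z) - A ρ β (h + z) n ≤ C * ((n : ℝ) ^ ε * md x (b ^ (p - 1)) n) := by
  obtain ⟨r, hr, C, hC, H⟩ := doubleH hd hρ hx hF hε
  obtain ⟨s, hs⟩ : ∃ s : ℝ, s = (2 : ℝ) ^ (ε - 1 / 2) := ⟨_, rfl⟩
  have hs0 : 0 < s := by
    rw [hs]
    exact Real.rpow_pos_of_pos two_pos _
  have hs1 : s < 1 := by
    rw [hs]
    exact Real.rpow_lt_one_of_one_lt_of_neg one_lt_two (by linarith)
  refine ⟨r, hr, C / 2 * (1 - s)⁻¹,
    mul_nonneg (by linarith) (inv_nonneg.2 (by linarith)), fun b hbp hbr z hz n hn => ?_⟩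
  have hn0 : (0 : ℝ) < n := by exact_mod_cast hn
  obtain ⟨D, hD⟩ : ∃ D : ℝ, D = (n : ℝ) ^ ε * md x (b ^ (p - 1)) n := ⟨_, rfl⟩
  have hD0 : 0 ≤ D := by
    rw [hD]
    exact mul_nonneg (Real.rpow_nonneg hn0.le _) (by linarith [md_one_le (t := b ^ (p - 1)) hx hn])
  have H' : ∀ k : ℕ, A ρ β (h + z) (2 ^ k * n + 2 ^ k * n) ≤ 2 * A ρ β (h + z) (2 ^ k * n) +
      (C * D) * (s * 2) ^ k := by
    intro k
    refine (H b hbp hbr z hz (2 ^ k * n) (Nat.mul_pos (by positivity) hn)).trans ?_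
    have h1 : ((2 ^ k * n : ℕ) : ℝ) ^ ε * md x (b ^ (p - 1)) (2 ^ k * n) ≤ D * (s * 2) ^ k := by
      have e1 : ((2 ^ k * n : ℕ) : ℝ) ^ ε = ((2 : ℝ) ^ ε) ^ k * (n : ℝ) ^ ε := by
        push_cast
        rw [Real.mul_rpow (by positivity) hn0.le, ← Real.rpow_natCast, ← Real.rpow_natCast,
          ← Real.rpow_mul (by norm_num), ← Real.rpow_mul (by norm_num), mul_comm (k : ℝ) ε]
      have e2 := md_dbl (t := b ^ (p - 1)) hx1 k hn
      have e3 : s * 2 = (2 : ℝ) ^ ε * (2 : ℝ) ^ (1 / 2 : ℝ) := by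
        have e4 : (2 : ℝ) ^ (ε - 1 / 2) * (2 : ℝ) ^ (1 : ℝ) = (2 : ℝ) ^ (ε + 1 / 2) := by
          rw [← Real.rpow_add two_pos]
          congr 1
          ring
        rw [hs, ← Real.rpow_add two_pos, ← e4, Real.rpow_one]
      rw [e1, e3, mul_pow, hD]
      calc ((2 : ℝ) ^ ε) ^ k * (n : ℝ) ^ ε * md x (b ^ (p - 1)) (2 ^ k * n)
          ≤ ((2 : ℝ) ^ ε) ^ k * (n : ℝ) ^ ε *
              (((2 : ℝ) ^ (1 / 2 : ℝ)) ^ k * md x (b ^ (p - 1)) n) :=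
            mul_le_mul_of_nonneg_left e2 (by positivity)
        _ = _ := by ring
    have h2 := mul_le_mul_of_nonneg_left h1 hC
    linarith
  have key : ∀ j : ℕ, A ρ β (h + z) (2 ^ j * n) / 2 ^ j ≤
      A ρ β (h + z) n + C / 2 * (1 - s)⁻¹ * D := by
    intro j
    refine (iterM n H' j).trans ?_
    have h1 : ∑ k ∈ Finset.range j, s ^ k ≤ (1 - s)⁻¹ := by
      rw [← tsum_geometric_of_lt_one hs0.le hs1]
      exact (summable_geometric_of_lt_one hs0.le hs1).sum_le_tsum _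
        (fun k _ => pow_nonneg hs0.le k)
    have h2 : 0 ≤ C * D / 2 := by positivity
    have h3 := mul_le_mul_of_nonneg_left h1 h2
    have h4 : C / 2 * (1 - s)⁻¹ * D = C * D / 2 * (1 - s)⁻¹ := by ring
    rw [h4]
    linarith
  have hlim : Tendsto (fun j : ℕ => A ρ β (h + z) (2 ^ j * n) / 2 ^ j) atTop
      (𝓝 (n * lam ρ β (h + z))) := by
    have h1 : Tendsto (fun j : ℕ => 2 ^ j * n) atTop atTop :=
      Filter.Tendsto.atTop_mul_const' hn (tendsto_pow_atTop_atTop_of_one_lt one_lt_two)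
    have h2 := ((tendsto_A hd hρ β (h + z)).comp h1).const_mul (n : ℝ)
    refine h2.congr fun j => ?_
    simp only [Function.comp]
    push_cast
    have h3 : (2 : ℝ) ^ j ≠ 0 := by positivity
    field_simp
  have h4 := le_of_tendsto' hlim key
  rw [← hD]
  linarith

/-- Tails from moments, with the modulus. -/
theorem tailH (hd : 0 < d) (hρ : EM ρ) {β : ℝ} {h v : Vec d} {C₁ p x : ℝ} {l : ℕ} (hx : 0 ≤ x)
    (hF : FlH ρ β h v C₁ p l x) {ε : ℝ} (hε : 0 < ε) (q : ℕ) :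
    ∃ r : ℝ, 0 < r ∧ ∃ C : ℝ, 0 ≤ C ∧ ∀ b : ℝ, 0 < b → b < r → ∀ z : Vec d,
      Fam (lam ρ β) h v C₁ p l b z → ∀ (n m : ℕ), 1 ≤ n → m ≤ n →
      ∀ (t : ℕ) (y : Site d) (w : ℝ), (n : ℝ) ^ ε * md x (b ^ (p - 1)) n ≤ w →
        (law d ρ).real {η | w < |X β (h + z) (sh t y η) m - A ρ β (h + z) m|} ≤
          C * (n : ℝ) ^ (-(q : ℝ)) := by
  obtain ⟨Q, hQ⟩ := exists_nat_ge ((q : ℝ) / (ε / 2))
  have hQ' : (q : ℝ) ≤ (ε / 2) * Q := by
    rw [div_le_iff₀ (by linarith)] at hQ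
    linarith
  obtain ⟨r, hr, C₀, hC₀⟩ := hF (ε / 2) (by linarith) Q
  obtain ⟨C₁, -, hC₁⟩ := momU (d := d) hd hρ β Q
  refine ⟨r, hr, |C₀|, abs_nonneg _, fun b hbp hbr z hz n m hn hm t y w hw => ?_⟩
  have hn1 : (1 : ℝ) ≤ n := by exact_mod_cast hn
  have hn0 : (0 : ℝ) < n := by linarith
  obtain ⟨M, hM⟩ : ∃ M : ℝ, M = md x (b ^ (p - 1)) n := ⟨_, rfl⟩
  have hM1 : 1 ≤ M := by
    rw [hM]
    exact md_one_le hx hn
  rw [← hM] at hw
  have hpn : 0 < (n : ℝ) ^ ε := Real.rpow_pos_of_pos hn0 _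
  have hw0 : 0 < w := lt_of_lt_of_le (mul_pos hpn (by linarith)) hw
  have hrhs : 0 ≤ |C₀| * (n : ℝ) ^ (-(q : ℝ)) :=
    mul_nonneg (abs_nonneg _) (Real.rpow_nonneg hn0.le _)
  rcases Nat.eq_zero_or_pos m with hm0 | hm0
  · have h1 : ∀ η : Env d, X β (h + z) η 0 = 0 := by
      intro η
      rw [X, Z_zero, Real.log_one]
    have h2 : A ρ β (h + z) 0 = 0 := by
      unfold A
      simp only [h1]
      exact integral_zero _ _
    have h3 : {η : Env d | w < |X β (h + z) (sh t y η) m - A ρ β (h + z) m|} = ∅ := by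
      rw [Set.eq_empty_iff_forall_notMem]
      intro η hη
      have hη' : w < |X β (h + z) (sh t y η) m - A ρ β (h + z) m| := hη
      rw [hm0, h1, h2, sub_zero, abs_zero] at hη'
      exact absurd hη' (not_lt.2 hw0.le)
    rw [h3, measureReal_empty]
    exact hrhs
  · obtain ⟨hint, -⟩ := hC₁ (h + z) m hm0
    have hmean := hC₀ b hbp hbr z hz m hm0
    have hmeasY : Measurable fun η : Env d => |X β (h + z) η m - A ρ β (h + z) m| :=
      ((measurable_X β (h + z) m).sub_const _).abs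
    have hset : MeasurableSet {η : Env d | w < |X β (h + z) η m - A ρ β (h + z) m|} :=
      measurableSet_lt measurable_const hmeasY
    have hshift : (law d ρ).real
        {η | w < |X β (h + z) (sh t y η) m - A ρ β (h + z) m|} =
        (law d ρ).real {η | w < |X β (h + z) η m - A ρ β (h + z) m|} := by
      rw [measureReal_def, measureReal_def, ← (mp_sh (ρ := ρ) t y).measure_preimage
        hset.nullMeasurableSet]
      rfl
    rw [hshift]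
    have hmk := mul_meas_ge_le_integral_of_nonneg (μ := law d ρ)
      (f := fun η => |X β (h + z) η m - A ρ β (h + z) m| ^ Q)
      (Filter.Eventually.of_forall fun η => pow_nonneg (abs_nonneg _) Q) hint
      (w ^ Q)
    have hsub : (law d ρ).real {η | w < |X β (h + z) η m - A ρ β (h + z) m|} ≤
        (law d ρ).real {η | w ^ Q ≤ |X β (h + z) η m - A ρ β (h + z) m| ^ Q} := by
      refine measureReal_mono fun η hη => ?_
      have hη' : w < |X β (h + z) η m - A ρ β (h + z) m| := hη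
      exact pow_le_pow_left₀ hw0.le hη'.le Q
    have hm1 : (1 : ℝ) ≤ m := by exact_mod_cast hm0
    have hmn : (m : ℝ) ≤ n := by exact_mod_cast hm
    have h5 : C₀ * ((m : ℝ) ^ (ε / 2) * ((m : ℝ) ^ x + Real.sqrt (m * b ^ (p - 1)))) ^ Q ≤
        |C₀| * ((n : ℝ) ^ (ε / 2) * M) ^ Q := by
      have a1 : (m : ℝ) ^ (ε / 2) ≤ (n : ℝ) ^ (ε / 2) :=
        Real.rpow_le_rpow (by linarith) hmn (by linarith)
      have a2 : (m : ℝ) ^ x + Real.sqrt (m * b ^ (p - 1)) ≤ M := by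
        rw [hM]
        exact md_mono_n hx (Real.rpow_nonneg hbp.le _) hm
      have a3 : 0 ≤ (m : ℝ) ^ x + Real.sqrt (m * b ^ (p - 1)) :=
        add_nonneg (Real.rpow_nonneg (by linarith) _) (Real.sqrt_nonneg _)
      have a4 : (m : ℝ) ^ (ε / 2) * ((m : ℝ) ^ x + Real.sqrt (m * b ^ (p - 1))) ≤
          (n : ℝ) ^ (ε / 2) * M := mul_le_mul a1 a2 a3 (Real.rpow_nonneg hn0.le _)
      have a5 : 0 ≤ (m : ℝ) ^ (ε / 2) * ((m : ℝ) ^ x + Real.sqrt (m * b ^ (p - 1))) :=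
        mul_nonneg (Real.rpow_nonneg (by linarith) _) a3
      exact mul_le_mul (le_abs_self _) (pow_le_pow_left₀ a5 a4 Q) (pow_nonneg a5 Q)
        (abs_nonneg _)
    have h6 : w ^ Q * (law d ρ).real {η | w < |X β (h + z) η m - A ρ β (h + z) m|} ≤
        |C₀| * ((n : ℝ) ^ (ε / 2) * M) ^ Q :=
      (mul_le_mul_of_nonneg_left hsub (pow_nonneg hw0.le Q)).trans (hmk.trans (hmean.trans h5))
    have h7 : |C₀| * ((n : ℝ) ^ (ε / 2) * M) ^ Q ≤ w ^ Q * (|C₀| * (n : ℝ) ^ (-(q : ℝ))) := by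
      have h8 : ((n : ℝ) ^ (ε / 2) * M) ^ Q ≤ w ^ Q * (n : ℝ) ^ (-(q : ℝ)) := by
        have b1 : ((n : ℝ) ^ ε * M) ^ Q ≤ w ^ Q :=
          pow_le_pow_left₀ (mul_nonneg hpn.le (by linarith)) hw Q
        have b2 : ((n : ℝ) ^ (ε / 2) * M) ^ Q ≤ ((n : ℝ) ^ ε * M) ^ Q * (n : ℝ) ^ (-(q : ℝ)) := by
          rw [mul_pow, mul_pow, ← Real.rpow_natCast, ← Real.rpow_mul hn0.le,
            ← Real.rpow_natCast ((n : ℝ) ^ ε), ← Real.rpow_mul hn0.le]
          have b3 : (n : ℝ) ^ (ε / 2 * Q) ≤ (n : ℝ) ^ (ε * Q) * (n : ℝ) ^ (-(q : ℝ)) := by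
            rw [← Real.rpow_add hn0]
            refine Real.rpow_le_rpow_of_exponent_le hn1 ?_
            linarith
          calc (n : ℝ) ^ (ε / 2 * Q) * M ^ Q
              ≤ ((n : ℝ) ^ (ε * Q) * (n : ℝ) ^ (-(q : ℝ))) * M ^ Q :=
                mul_le_mul_of_nonneg_right b3 (by positivity)
            _ = _ := by ring
        exact b2.trans (mul_le_mul_of_nonneg_right b1 (Real.rpow_nonneg hn0.le _))
      calc |C₀| * ((n : ℝ) ^ (ε / 2) * M) ^ Q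
          ≤ |C₀| * (w ^ Q * (n : ℝ) ^ (-(q : ℝ))) :=
            mul_le_mul_of_nonneg_left h8 (abs_nonneg _)
        _ = w ^ Q * (|C₀| * (n : ℝ) ^ (-(q : ℝ))) := by ring
    exact le_of_mul_le_mul_left (h6.trans h7) (pow_pos hw0 Q)

/-- The probability of the good event. -/
theorem probH (hd : 0 < d) (hρ : EM ρ) {β : ℝ} {h v : Vec d} {C₁ p x : ℝ} {l : ℕ} (hx : 0 ≤ x)
    (hF : FlH ρ β h v C₁ p l x) {ε : ℝ} (hε : 0 < ε) (q : ℕ) :
    ∃ r : ℝ, 0 < r ∧ ∃ C : ℝ, 0 ≤ C ∧ ∀ b : ℝ, 0 < b → b < r → ∀ (z u : Vec d) (σ : ℝ),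
      Fam (lam ρ β) h v C₁ p l b z → Fam (lam ρ β) h v C₁ p l b (z + σ • u) →
      Fam (lam ρ β) h v C₁ p l b (z + (-σ) • u) →
      ∀ (n : ℕ) (w : ℝ), 1 ≤ n → (n : ℝ) ^ ε * md x (b ^ (p - 1)) n ≤ w →
      (law d ρ).real {η | ¬ GdL7 ρ β (h + z) u σ w n η} ≤ C * (n : ℝ) ^ (-(q : ℝ)) := by
  classical
  obtain ⟨δ, hδ, C₀, hC₀, hT⟩ := tailH hd hρ hx hF hε (q + d + 2)
  refine ⟨δ, hδ, C₀ * (4 + 2 * 3 ^ d), by positivity,
    fun b hbp hbr z u σ hz hzp hzm n w hn hw => ?_⟩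
  have hn1 : (1 : ℝ) ≤ n := by exact_mod_cast hn
  have hn0 : (0 : ℝ) < n := by linarith
  obtain ⟨B, hB⟩ : ∃ B : ℝ, B = C₀ * (n : ℝ) ^ (-((q + d + 2 : ℕ) : ℝ)) := ⟨_, rfl⟩
  have hB0 : 0 ≤ B := by
    rw [hB]
    exact mul_nonneg hC₀ (Real.rpow_nonneg hn0.le _)
  have hsh0 : ∀ η : Env d, sh 0 0 η = η := by
    intro η
    funext p
    unfold sh
    rw [add_zero, add_zero]
  -- the events
  obtain ⟨S1, hS1⟩ : ∃ S1 : ℕ × Bool → Set (Env d), S1 = fun c =>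
      {η | w < |X β (h + (z + (if c.2 then σ else -σ) • u)) η c.1 -
        A ρ β (h + (z + (if c.2 then σ else -σ) • u)) c.1|} := ⟨_, rfl⟩
  obtain ⟨S2, hS2⟩ : ∃ S2 : ℕ × Site d → Set (Env d), S2 = fun c =>
      {η | w < |X β (h + z) (sh c.1 c.2 η) (n - c.1) - A ρ β (h + z) (n - c.1)|} :=
    ⟨_, rfl⟩
  have hfam : ∀ c : Bool, Fam (lam ρ β) h v C₁ p l b (z + (if c then σ else -σ) • u) := by
    intro c
    cases c
    · simpa using hzm
    · simpa using hzp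
  have h1 : ∀ c ∈ (Finset.range (n + 1)) ×ˢ (Finset.univ : Finset Bool),
      (law d ρ).real (S1 c) ≤ B := by
    intro c hc
    have hc1 : c.1 ≤ n := Nat.lt_succ_iff.1 (Finset.mem_range.1 (Finset.mem_product.1 hc).1)
    have h2 := hT b hbp hbr (z + (if c.2 then σ else -σ) • u) (hfam c.2) n c.1 hn hc1 0 0 w hw
    simp only [hsh0] at h2
    rw [hB, hS1]
    exact h2
  have h2 : ∀ c ∈ (Finset.range (n + 1)) ×ˢ boxF d n, (law d ρ).real (S2 c) ≤ B := by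
    intro c hc
    have h3 := hT b hbp hbr z hz n (n - c.1) hn (Nat.sub_le _ _) c.1 c.2 w hw
    rw [hB, hS2]
    exact h3
  have htilt : ∀ s : ℝ, h + z + s • u = h + (z + s • u) := by
    intro s
    rw [add_assoc]
  have hsub : {η | ¬ GdL7 ρ β (h + z) u σ w n η} ⊆
      (⋃ c ∈ (Finset.range (n + 1)) ×ˢ (Finset.univ : Finset Bool), S1 c) ∪
        ⋃ c ∈ (Finset.range (n + 1)) ×ˢ boxF d n, S2 c := by
    intro η hη
    by_contra hcon
    rw [Set.mem_union, not_or, Set.mem_iUnion₂, Set.mem_iUnion₂] at hcon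
    obtain ⟨c1, c2⟩ := hcon
    apply hη
    refine ⟨fun i hi => ⟨?_, ?_⟩, fun i hi y hy => ?_⟩
    · by_contra hc
      refine c1 ⟨(i, true), ?_, ?_⟩
      · exact Finset.mem_product.2 ⟨Finset.mem_range.2 (Nat.lt_succ_iff.2 hi),
          Finset.mem_univ _⟩
      · rw [htilt] at hc
        rw [hS1]
        simpa using hc
    · by_contra hc
      refine c1 ⟨(i, false), ?_, ?_⟩
      · exact Finset.mem_product.2 ⟨Finset.mem_range.2 (Nat.lt_succ_iff.2 hi),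
          Finset.mem_univ _⟩
      · rw [htilt] at hc
        rw [hS1]
        simpa using hc
    · by_contra hc
      refine c2 ⟨(i, y), ?_, ?_⟩
      · exact Finset.mem_product.2 ⟨Finset.mem_range.2 (Nat.lt_succ_iff.2 hi), hy⟩
      · rw [hS2]
        exact not_le.1 hc
  have h3 : (law d ρ).real {η | ¬ GdL7 ρ β (h + z) u σ w n η} ≤
      ((n : ℝ) + 1) * 2 * B + ((n : ℝ) + 1) * (2 * n + 1) ^ d * B := by
    refine (measureReal_mono hsub).trans ((measureReal_union_le _ _).trans (add_le_add ?_ ?_))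
    · refine (measureReal_biUnion_finset_le _ _).trans ((Finset.sum_le_sum h1).trans
        (le_of_eq ?_))
      rw [Finset.sum_const, Finset.card_product, Finset.card_range, Finset.card_univ,
        Fintype.card_bool, nsmul_eq_mul]
      push_cast
      ring
    · refine (measureReal_biUnion_finset_le _ _).trans ((Finset.sum_le_sum h2).trans
        (le_of_eq ?_))
      rw [Finset.sum_const, Finset.card_product, Finset.card_range, card_boxF, nsmul_eq_mul]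
      push_cast
      ring
  have h4 : (n : ℝ) + 1 ≤ 2 * n := by linarith
  have h5 : (2 * (n : ℝ) + 1) ^ d ≤ 3 ^ d * (n : ℝ) ^ d := by
    rw [← mul_pow]
    exact pow_le_pow_left₀ (by positivity) (by linarith) d
  have h6 : (1 : ℝ) ≤ (n : ℝ) ^ d := one_le_pow₀ hn1
  have h7 : ((n : ℝ) + 1) * 2 * B ≤ 4 * ((n : ℝ) ^ (d + 1) * B) := by
    have e1 : ((n : ℝ) + 1) * 2 ≤ 4 * ((n : ℝ) ^ d * n) := by
      have e3 : (n : ℝ) ≤ (n : ℝ) ^ d * n := le_mul_of_one_le_left hn0.le h6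
      linarith
    have e5 := mul_le_mul_of_nonneg_right e1 hB0
    rw [pow_succ]
    linarith
  have h8 : ((n : ℝ) + 1) * (2 * n + 1) ^ d * B ≤ (2 * 3 ^ d) * ((n : ℝ) ^ (d + 1) * B) := by
    have e1 : ((n : ℝ) + 1) * (2 * n + 1) ^ d ≤ (2 * n) * (3 ^ d * (n : ℝ) ^ d) :=
      mul_le_mul h4 h5 (by positivity) (by positivity)
    have e5 := mul_le_mul_of_nonneg_right e1 hB0
    rw [pow_succ]
    linarith
  have h9 : (n : ℝ) ^ (d + 1) * B ≤ C₀ * (n : ℝ) ^ (-(q : ℝ)) := by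
    rw [hB]
    have e1 : (n : ℝ) ^ (d + 1) * (n : ℝ) ^ (-((q + d + 2 : ℕ) : ℝ)) ≤
        (n : ℝ) ^ (-(q : ℝ)) := by
      rw [← Real.rpow_natCast, ← Real.rpow_add hn0]
      refine Real.rpow_le_rpow_of_exponent_le hn1 ?_
      push_cast
      linarith
    calc (n : ℝ) ^ (d + 1) * (C₀ * (n : ℝ) ^ (-((q + d + 2 : ℕ) : ℝ)))
        = C₀ * ((n : ℝ) ^ (d + 1) * (n : ℝ) ^ (-((q + d + 2 : ℕ) : ℝ))) := by ring
      _ ≤ C₀ * (n : ℝ) ^ (-(q : ℝ)) := mul_le_mul_of_nonneg_left e1 hC₀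
  have h10 : (4 + 2 * 3 ^ d) * ((n : ℝ) ^ (d + 1) * B) ≤
      (4 + 2 * 3 ^ d) * (C₀ * (n : ℝ) ^ (-(q : ℝ))) :=
    mul_le_mul_of_nonneg_left h9 (by positivity)
  calc (law d ρ).real {η | ¬ GdL7 ρ β (h + z) u σ w n η}
      ≤ ((n : ℝ) + 1) * 2 * B + ((n : ℝ) + 1) * (2 * n + 1) ^ d * B := h3
    _ ≤ 4 * ((n : ℝ) ^ (d + 1) * B) + (2 * 3 ^ d) * ((n : ℝ) ^ (d + 1) * B) :=
        add_le_add h7 h8
    _ = (4 + 2 * 3 ^ d) * ((n : ℝ) ^ (d + 1) * B) := by ring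
    _ ≤ (4 + 2 * 3 ^ d) * (C₀ * (n : ℝ) ^ (-(q : ℝ))) := h10
    _ = C₀ * (4 + 2 * 3 ^ d) * (n : ℝ) ^ (-(q : ℝ)) := by ring


end Pool.Agent.W_7d29a1_H96
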