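import Pool.Agent.W_7d29a1_H96.DefsH96
import Pool.Agent.W_7d29a1_V.SlbL96

/-!
`SpaceV → SlbU`: the fluctuations are at most the square root of the width of the slab, uniformly in
the direction.
-/

namespace Pool.Agent.W_7d29a1_H96

open MeasureTheory ProbabilityTheory Filter Topology Pool.Agent.W_MP_7d29a1_pr
  Pool.Agent.W_7d29a1_h46 Pool.Agent.W_7d29a1_h46u Pool.Agent.W_7d29a1_D2
  Pool.Agent.W_7d29a1_D2.B35 Pool.Agent.W_7d29a1_V

variable {d : ℕ} {ρ : Measure ℝ} [IsProbabilityMeasure ρ]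

open Tube67 SlbL96 in
/-- U12: the fluctuations of the free energy are at most the square root of the wandering. -/
theorem slbU96 (hd : 0 < d) (hρ : EM ρ) (β R : ℝ) (hS : SpaceV d ρ β R) : SlbU d ρ β R := by
  intro ε q hε
  rcases Nat.eq_zero_or_pos q with rfl | hq
  · exact ⟨0, 1, fun h hh u hu s n hn W hW hWn hP => by simp⟩
  obtain ⟨C1, hC1, h1⟩ := SlbL96.near_mom (ρ := ρ) hd hρ β (r := 2 * q) (by omega)
  obtain ⟨C3, h3⟩ := hS (2 * ε) (by linarith) q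
  obtain ⟨C2, hC2, h2⟩ := momU (ρ := ρ) hd hρ β (2 * q)
  obtain ⟨C4, hC4, h4⟩ := momU (ρ := ρ) hd hρ β q
  set K : ℝ := 3 ^ (2 * q) * (C1 + 3 ^ (2 * q) * (C1 + C1) + (1 + C1) ^ (2 * q)) with hK
  set K' : ℝ := 3 ^ (2 * q) * 3 ^ (2 * q) * (3 * |C3|) ^ q with hK'
  have hK0 : 0 ≤ K := by positivity
  have hK'0 : 0 ≤ K' := by positivity
  refine ⟨2 * q, 1 + K + K', fun h hh u hu s n hn W hW hWn hP => ?_⟩
  obtain ⟨k, hk⟩ := hu
  have hn0 : (0 : ℝ) < n := by exact_mod_cast hn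
  have hn1 : (1 : ℝ) ≤ n := by exact_mod_cast hn
  have hW0 : 0 < W := by linarith
  obtain ⟨hi, hC⟩ := h1 h u s n hn W (by exact_mod_cast hP)
  set x : ℕ := ⌊W⌋₊ + 1 with hx
  have hx1 : W < x := by
    have := Nat.lt_floor_add_one W
    rw [hx]
    push_cast
    linarith
  have hx2 : (x : ℝ) ≤ W + 1 := by
    have := Nat.floor_le hW0.le
    rw [hx]
    push_cast
    linarith
  have hx3 : x ≤ 5 * n := by
    have e1 : (x : ℝ) ≤ 5 * n := by linarith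
    exact_mod_cast e1
  have hmain := main96 hd hρ β h u s hn hk hx1 hq hi hC
  have hMo := h3 h hh n hn k x hx3
  set Y : ℝ := (W * (n : ℝ) ^ (2 * ε)) ^ q with hY
  have hne : 1 ≤ (n : ℝ) ^ (2 * ε) := Real.one_le_rpow hn1 (by linarith)
  have hWn1 : 1 ≤ W * (n : ℝ) ^ (2 * ε) := by nlinarith
  have hY1 : 1 ≤ Y := one_le_pow₀ hWn1
  have hMo2 : Mo ρ β h n k q x ≤ (3 * |C3|) ^ q * Y := by
    refine hMo.trans ?_
    rw [hY, ← mul_pow]
    have e1 : C3 * ((x : ℝ) + 1) * (n : ℝ) ^ (2 * ε) ≤ 3 * |C3| * (W * (n : ℝ) ^ (2 * ε)) := by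
      have e2 : C3 * ((x : ℝ) + 1) ≤ |C3| * (3 * W) := by
        calc C3 * ((x : ℝ) + 1) ≤ |C3| * ((x : ℝ) + 1) :=
              mul_le_mul_of_nonneg_right (le_abs_self _) (by positivity)
          _ ≤ _ := mul_le_mul_of_nonneg_left (by linarith) (abs_nonneg _)
      calc C3 * ((x : ℝ) + 1) * (n : ℝ) ^ (2 * ε) ≤ |C3| * (3 * W) * (n : ℝ) ^ (2 * ε) :=
            mul_le_mul_of_nonneg_right e2 (by positivity)
        _ = _ := by ring
    have e3 : |C3 * ((x : ℝ) + 1) * (n : ℝ) ^ (2 * ε)| ≤ 3 * |C3| * (W * (n : ℝ) ^ (2 * ε)) := by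
      rw [abs_mul, abs_mul, abs_of_nonneg (show (0 : ℝ) ≤ (x : ℝ) + 1 by positivity),
        abs_of_nonneg (show (0 : ℝ) ≤ (n : ℝ) ^ (2 * ε) by positivity)]
      calc |C3| * ((x : ℝ) + 1) * (n : ℝ) ^ (2 * ε) ≤ |C3| * (3 * W) * (n : ℝ) ^ (2 * ε) :=
            mul_le_mul_of_nonneg_right (mul_le_mul_of_nonneg_left (by linarith) (abs_nonneg _))
              (by positivity)
        _ = _ := by ring
    calc (C3 * ((x : ℝ) + 1) * (n : ℝ) ^ (2 * ε)) ^ q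
        ≤ |(C3 * ((x : ℝ) + 1) * (n : ℝ) ^ (2 * ε)) ^ q| := le_abs_self _
      _ = |C3 * ((x : ℝ) + 1) * (n : ℝ) ^ (2 * ε)| ^ q := abs_pow _ _
      _ ≤ _ := pow_le_pow_left₀ (abs_nonneg _) e3 _
  have hbound : ∫ η, |X β h η n - A ρ β h n| ^ (2 * q) ∂(law d ρ) ≤
      ((1 + K + K') * Real.sqrt W * (n : ℝ) ^ ε) ^ (2 * q) := by
    have e1 : ((1 + K + K') * Real.sqrt W * (n : ℝ) ^ ε) ^ (2 * q) = (1 + K + K') ^ (2 * q) * Y := by
      rw [mul_assoc, mul_pow]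
      congr 1
      rw [hY, pow_mul, mul_pow, Real.sq_sqrt hW0.le, ← Real.rpow_natCast ((n : ℝ) ^ ε) 2,
        ← Real.rpow_mul hn0.le]
      congr 3
      push_cast
      ring
    have e2 : 3 ^ (2 * q) * (C1 + 3 ^ (2 * q) * (C1 + Mo ρ β h n k q x + C1) +
        (1 + C1) ^ (2 * q)) ≤ K + K' * Y := by
      have e3 : 3 ^ (2 * q) * (C1 + 3 ^ (2 * q) * (C1 + Mo ρ β h n k q x + C1) +
        (1 + C1) ^ (2 * q)) = K + 3 ^ (2 * q) * 3 ^ (2 * q) * Mo ρ β h n k q x := by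
        rw [hK]
        ring
      rw [e3]
      have e4 := mul_le_mul_of_nonneg_left hMo2 (show (0 : ℝ) ≤ 3 ^ (2 * q) * 3 ^ (2 * q) by
        positivity)
      rw [hK']
      linarith
    have e5 : 1 + K + K' ≤ (1 + K + K') ^ (2 * q) :=
      le_self_pow₀ (by linarith) (by omega)
    rw [e1]
    refine hmain.trans (e2.trans ?_)
    have e6 : K + K' * Y ≤ (1 + K + K') * Y := by nlinarith
    exact e6.trans (mul_le_mul_of_nonneg_right e5 (by linarith))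
  -- from the power `2 q` to the power `q`
  obtain ⟨hi2, _⟩ := h2 h n hn
  obtain ⟨hi4, _⟩ := h4 h n hn
  have hpow : ∀ η, (|X β h η n - A ρ β h n| ^ q) ^ 2 = |X β h η n - A ρ β h n| ^ (2 * q) := by
    intro η
    rw [← pow_mul, mul_comm]
  have hsq := sq_int (ρ := ρ) hi4 (by
    refine hi2.congr (Filter.Eventually.of_forall fun η => ?_)
    exact (hpow η).symm)
  simp only [hpow] at hsq
  have hfin := hsq.trans hbound
  have e7 : ((1 + K + K') * Real.sqrt W * (n : ℝ) ^ ε) ^ (2 * q) =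
      (((1 + K + K') * Real.sqrt W * (n : ℝ) ^ ε) ^ q) ^ 2 := by
    rw [← pow_mul, mul_comm q 2]
  rw [e7] at hfin
  exact le_of_sq_le_sq hfin (by positivity)

end Pool.Agent.W_7d29a1_H96
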