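import Pool.Agent.W_7d29a1_V.FarL70
import Pool.Agent.W_7d29a1_V.AeC7
import Pool.Agent.W_7d29a1_H96.RatH96

/-!
The bootstrap with a good direction at every scale, part (b): the slabs (H2).
-/

namespace Pool.Agent.W_7d29a1_H96

open MeasureTheory ProbabilityTheory Filter Topology Pool.Agent.W_MP_7d29a1_pr
  Pool.Agent.W_7d29a1_h46 Pool.Agent.W_7d29a1_h46u Pool.Agent.W_7d29a1_D2 Pool.Agent.W_7d29a1_V
  Pool.Agent.W_7d29a1_V.Ae7

namespace Tub7

variable {d : ℕ} {ρ : Measure ℝ} [IsProbabilityMeasure ρ]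

/-- Convexity of the gap at a midpoint. -/
theorem gap_mid {L : Vec d → ℝ} (hL : ConvexOn ℝ Set.univ L) (h v x y : Vec d) :
    gap L h v ((1 / 2 : ℝ) • x + (1 / 2 : ℝ) • y) ≤ (gap L h v x + gap L h v y) / 2 := by
  have h1 := hL.2 (Set.mem_univ (h + x)) (Set.mem_univ (h + y))
    (show (0 : ℝ) ≤ 1 / 2 by norm_num) (show (0 : ℝ) ≤ 1 / 2 by norm_num) (by norm_num)
  have h2 : (1 / 2 : ℝ) • (h + x) + (1 / 2 : ℝ) • (h + y) =
      h + ((1 / 2 : ℝ) • x + (1 / 2 : ℝ) • y) := by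
    rw [smul_add, smul_add]
    have e : (1 / 2 : ℝ) • h + (1 / 2 : ℝ) • h = h := by
      rw [← add_smul]
      norm_num
    calc (1 / 2 : ℝ) • h + (1 / 2 : ℝ) • x + ((1 / 2 : ℝ) • h + (1 / 2 : ℝ) • y)
        = ((1 / 2 : ℝ) • h + (1 / 2 : ℝ) • h) + ((1 / 2 : ℝ) • x + (1 / 2 : ℝ) • y) := by abel
      _ = _ := by rw [e]
  rw [h2, smul_eq_mul, smul_eq_mul] at h1
  unfold gap
  rw [inner_add_right, inner_smul_right, inner_smul_right]
  linarith

/-- The gap at a smaller multiple. -/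
theorem gap_div {L : Vec d → ℝ} (hL : ConvexOn ℝ Set.univ L) (h v k : Vec d) {m : ℕ}
    (hm : 1 ≤ m) {B : ℝ} (hB : 0 ≤ B) (hk : gap L h v ((m : ℝ) • k) ≤ B) :
    gap L h v k ≤ B := by
  have hm1 : (1 : ℝ) ≤ m := by exact_mod_cast hm
  have hm0 : (0 : ℝ) < m := by linarith
  obtain ⟨a, ha⟩ : ∃ a : ℝ, a = 1 / (m : ℝ) := ⟨_, rfl⟩
  have ha0 : 0 < a := by
    rw [ha]
    positivity
  have ha1 : a ≤ 1 := by
    rw [ha, div_le_one hm0]
    exact hm1
  have ham : a * m = 1 := by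
    rw [ha]
    field_simp
  have h1 := hL.2 (Set.mem_univ (h + (m : ℝ) • k)) (Set.mem_univ h) ha0.le
    (show 0 ≤ 1 - a by linarith) (by ring)
  have h2 : a • (h + (m : ℝ) • k) + (1 - a) • h = h + k := by
    rw [smul_add, smul_smul, ham, one_smul, sub_smul, one_smul]
    abel
  rw [h2, smul_eq_mul, smul_eq_mul] at h1
  unfold gap at hk ⊢
  rw [inner_smul_right] at hk
  have h3 := mul_le_mul_of_nonneg_left hk ha0.le
  have h4 : a * (L (h + (m : ℝ) • k) - L h - m * inner ℝ v k) =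
      a * L (h + (m : ℝ) • k) - a * L h - inner ℝ v k := by
    have : a * (m * inner ℝ v k) = (a * m) * inner ℝ v k := by ring
    rw [mul_sub, mul_sub, this, ham, one_mul]
  rw [h4] at h3
  have h5 : a * B ≤ B := mul_le_of_le_one_left hB ha1
  linarith

/-- The family at the scale `T` contains the tilts moved along the good direction. -/
theorem fam_mix {L : Vec d → ℝ} (hL : ConvexOn ℝ Set.univ L) {h v k y z : Vec d} {C p t T : ℝ}
    {m : ℕ} (hp : 0 ≤ p) (hC : 0 ≤ C) (ht : 0 < t) (htT : t ≤ T)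
    (hk : Fam L h v C p (2 * m) t k) (hy : ‖y‖ ≤ 1) (hy1 : gap L h v y ≤ C * T ^ p)
    (hy2 : gap L h v (-y) ≤ C * T ^ p)
    (hz : (m : ℝ) • z = (1 / 2 : ℝ) • (((2 * m : ℕ) : ℝ) • k) + (1 / 2 : ℝ) • y) :
    Fam L h v C p m T z := by
  obtain ⟨h1, h2, h3⟩ := hk
  have hmono : C * t ^ p ≤ C * T ^ p :=
    mul_le_mul_of_nonneg_left (Real.rpow_le_rpow ht.le htT hp) hC
  refine ⟨?_, ?_, ?_⟩
  · rw [hz]
    refine (norm_add_le _ _).trans ?_
    rw [norm_smul (1 / 2 : ℝ) (((2 * m : ℕ) : ℝ) • k), norm_smul (1 / 2 : ℝ) y,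
      Real.norm_of_nonneg (show (0 : ℝ) ≤ 1 / 2 by norm_num)]
    linarith
  · rw [hz]
    refine (gap_mid hL h v _ _).trans ?_
    linarith
  · have e : -((m : ℝ) • z) = (1 / 2 : ℝ) • (-(((2 * m : ℕ) : ℝ) • k)) + (1 / 2 : ℝ) • (-y) := by
      rw [hz, smul_neg, smul_neg, neg_add]
    rw [e]
    refine (gap_mid hL h v _ _).trans ?_
    linarith

/-- **H2** The slabs. -/
theorem h2_7 (hd : 0 < d) (hρ : EM ρ) (β : ℝ) : H2 d ρ β := by
  intro h v C₁ D p x m hC₁ hm hp hs hG hx hx1 hF e he Q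
  have hx0 : 0 < x := lt_of_lt_of_le (by positivity) hx
  have hp0 : 0 ≤ p := by linarith
  have hL := lam_convex hd hρ β
  have hm1 : (1 : ℝ) ≤ m := by exact_mod_cast hm
  have hm0 : (0 : ℝ) < m := by linarith
  obtain ⟨ε, hε, hεe, hε1⟩ : ∃ ε : ℝ, 0 < ε ∧ 3 * ε ≤ e ∧ ε < 1 / 2 := by
    refine ⟨min (e / 3) (1 / 4), lt_min (by linarith) (by norm_num), ?_, ?_⟩
    · have := min_le_left (e / 3) (1 / 4)
      linarith
    · have := min_le_right (e / 3) (1 / 4)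
      linarith
  obtain ⟨r₁, hr₁, C₂, hC₂, H₁⟩ := rateH hd hρ hx0.le hx1 hF hε hε1
  obtain ⟨r₂, hr₂, C₃, hC₃, H₂⟩ := probH hd hρ hx0.le hF hε Q
  obtain ⟨δ, hδ, hG'⟩ := hG
  obtain ⟨S, hS⟩ : ∃ S : ℝ, S = (2 : ℝ) ^ ((p - 1) / 2) := ⟨_, rfl⟩
  have hS0 : 0 < S := by
    rw [hS]
    positivity
  obtain ⟨C', hC'⟩ : ∃ C' : ℝ, C' = C₁ + 3 * (1 + S) + C₂ * (1 + S) := ⟨_, rfl⟩
  have hC'0 : 0 ≤ C' := by
    rw [hC']
    positivity
  obtain ⟨δ', hδ'⟩ : ∃ δ' : ℝ, δ' = min (min r₁ r₂) (min δ (1 / (|D| + 1))) := ⟨_, rfl⟩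
  have hD1 : 0 < 1 / (|D| + 1) := by positivity
  have hδ'0 : 0 < δ' := by
    rw [hδ']
    exact lt_min (lt_min hr₁ hr₂) (lt_min hδ hD1)
  have hδ1 : δ' ≤ r₁ := by
    rw [hδ']
    exact (min_le_left _ _).trans (min_le_left _ _)
  have hδ2 : δ' ≤ r₂ := by
    rw [hδ']
    exact (min_le_left _ _).trans (min_le_right _ _)
  have hδ3 : δ' ≤ δ := by
    rw [hδ']
    exact (min_le_right _ _).trans (min_le_left _ _)
  have hδ4 : δ' ≤ 1 / (|D| + 1) := by
    rw [hδ']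
    exact (min_le_right _ _).trans (min_le_right _ _)
  -- large `n`
  have hcast := tendsto_natCast_atTop_atTop (R := ℝ)
  have hsmall : ∀ᶠ n : ℕ in atTop, (n : ℝ) ^ ((x - 1) / p) < δ' := by
    have h0 : 0 < (1 - x) / p := div_pos (by linarith) (by linarith)
    have h1 := (tendsto_rpow_neg_atTop h0).comp hcast
    have h2 := h1.eventually (gt_mem_nhds hδ'0)
    refine h2.mono fun n hn => ?_
    have e1 : (x - 1) / p = -((1 - x) / p) := by ring
    rw [e1]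
    exact hn
  have hbig : ∀ᶠ n : ℕ in atTop, C' * (2 * m) ≤ (n : ℝ) ^ (2 * ε) :=
    ((tendsto_rpow_atTop (show 0 < 2 * ε by linarith)).comp hcast).eventually
      (eventually_ge_atTop _)
  obtain ⟨N, hN⟩ := eventually_atTop.1
    ((hsmall.and hbig).and (TubW_asym (2 * m) (by omega) C' hC'0 hx0 hε Q))
  refine ⟨δ', hδ'0, max (C₃ + 4) ((N : ℝ) ^ (Q : ℝ)), fun a ha0 ha k hk n hn W hW => ?_⟩
  have hn1 : (1 : ℝ) ≤ n := by exact_mod_cast hn
  have hn0 : (0 : ℝ) < n := by linarith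
  have hq0 : 0 ≤ (n : ℝ) ^ (-(Q : ℝ)) := Real.rpow_nonneg hn0.le _
  have hint : ∀ (u : Vec d) (η : Env d),
      1 - PolT β (h + k) η (slb d n u (inner ℝ v u) W) ≤ 1 := fun u η => by
    have := PolT_nonneg β (h + k) η (slb d n u (inner ℝ v u) W)
    linarith
  have hint0 : ∀ (u : Vec d) (η : Env d),
      0 ≤ 1 - PolT β (h + k) η (slb d n u (inner ℝ v u) W) := fun u η => by
    have := PolT_le_one β (h + k) η (slb d n u (inner ℝ v u) W)
    linarith
  rcases lt_or_ge n N with hnN | hnN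
  · -- small n
    obtain ⟨u, hu, -, -⟩ := hG' δ hδ le_rfl
    refine ⟨u, hu.2, ?_⟩
    have h1 : ∫ η, (1 - PolT β (h + k) η (slb d n u (inner ℝ v u) W)) ∂(law d ρ) ≤ 1 := by
      have h2 := integral_mono_of_nonneg (μ := law d ρ) (Eventually.of_forall (hint0 u))
        (integrable_const (1 : ℝ)) (Eventually.of_forall (hint u))
      refine h2.trans (le_of_eq ?_)
      simp
    refine h1.trans ?_
    have h3 : 1 ≤ (N : ℝ) ^ (Q : ℝ) * (n : ℝ) ^ (-(Q : ℝ)) := by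
      rw [Real.rpow_neg hn0.le, ← div_eq_mul_inv, one_le_div (Real.rpow_pos_of_pos hn0 _)]
      exact Real.rpow_le_rpow hn0.le (by exact_mod_cast hnN.le) (Nat.cast_nonneg Q)
    exact h3.trans (mul_le_mul_of_nonneg_right (le_max_right _ _) hq0)
  · obtain ⟨⟨ht1, hb1⟩, hasym⟩ := hN n hnN
    obtain ⟨t, ht⟩ : ∃ t : ℝ, t = max a ((n : ℝ) ^ ((x - 1) / p)) := ⟨_, rfl⟩
    obtain ⟨A1, A2, A3⟩ := arithM hp hx ha0.le hn ht
    have hat : a ≤ t := by
      rw [ht]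
      exact le_max_left _ _
    have ht0 : 0 < t := lt_of_lt_of_le ha0 hat
    have htl : t < δ' := by
      rw [ht]
      exact max_lt ha ht1
    obtain ⟨u, hu, hu1, hu2⟩ := hG' t ht0 (htl.le.trans hδ3)
    refine ⟨u, hu.2, ?_⟩
    rw [← hS] at A2
    obtain ⟨T, hT⟩ : ∃ T : ℝ, T = n * t ^ p := ⟨_, rfl⟩
    rw [← hT] at A1 A2 A3
    have hT0 : 0 < T := by
      rw [hT]
      positivity
    have hmdt : md x (t ^ (p - 1)) n ≤ (1 + S) * T := by
      refine (md_mono_t (t' := (2 * t) ^ (p - 1))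
        (Real.rpow_le_rpow ht0.le (by linarith) (by linarith)) n).trans ?_
      unfold md
      linarith
    have hyε : 0 < (n : ℝ) ^ ε := Real.rpow_pos_of_pos hn0 _
    have hyε1 : 1 ≤ (n : ℝ) ^ ε := Real.one_le_rpow hn1 hε.le
    obtain ⟨w, hw⟩ : ∃ w : ℝ, w = (n : ℝ) ^ ε * ((1 + S) * T) := ⟨_, rfl⟩
    -- the family at the scale `t`
    have hnu : ‖t • u‖ ≤ 1 := by
      rw [norm_smul, Real.norm_of_nonneg ht0.le]
      have g1 : ‖u‖ ≤ |D| + 1 := hu.1.trans (by linarith [le_abs_self D])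
      have g2 : t ≤ 1 / (|D| + 1) := htl.le.trans hδ4
      calc t * ‖u‖ ≤ (1 / (|D| + 1)) * (|D| + 1) :=
            mul_le_mul g2 g1 (norm_nonneg _) hD1.le
        _ = 1 := by
            have : |D| + 1 ≠ 0 := by positivity
            field_simp
    obtain ⟨σ, hσ⟩ : ∃ σ : ℝ, σ = t / (2 * m) := ⟨_, rfl⟩
    have hσ0 : 0 < σ := by
      rw [hσ]
      positivity
    have hmσ : m * σ = t / 2 := by
      rw [hσ]
      field_simp
    have hCt : 0 ≤ C₁ * t ^ p := by positivity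
    have hcast2 : ((2 * m : ℕ) : ℝ) = 2 * m := by push_cast; ring
    have hhalf : (1 / 2 : ℝ) • (((2 * m : ℕ) : ℝ) • k) = (m : ℝ) • k := by
      rw [smul_smul, hcast2]
      congr 1
      ring
    have hf0 : Fam (lam ρ β) h v C₁ p m t k := by
      refine fam_mix hL hp0 hC₁ ha0 hat hk (y := 0) (by simp) ?_ ?_ ?_
      · unfold gap
        simpa using hCt
      · unfold gap
        simpa using hCt
      · rw [hhalf, smul_zero, add_zero]
    have hfp : Fam (lam ρ β) h v C₁ p m t (k + σ • u) := by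
      refine fam_mix hL hp0 hC₁ ha0 hat hk (y := t • u) hnu hu1 hu2 ?_
      rw [hhalf, smul_add, smul_smul, smul_smul, hmσ]
      congr 2
      ring
    have hfm : Fam (lam ρ β) h v C₁ p m t (k + (-σ) • u) := by
      refine fam_mix hL hp0 hC₁ ha0 hat hk (y := -(t • u)) (by rw [norm_neg]; exact hnu) hu2
        (by rw [neg_neg]; exact hu1) ?_
      rw [hhalf, smul_add, smul_smul, mul_neg, hmσ, ← neg_smul, smul_smul]
      congr 2
      ring
    have hbad := H₂ t ht0 (htl.trans_le hδ2) k u σ hf0 hfp hfm n w hn (by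
      rw [hw]
      exact mul_le_mul_of_nonneg_left hmdt hyε.le)
    have hR : n * lam ρ β (h + k) - A ρ β (h + k) n ≤ C₂ * w := by
      refine (H₁ t ht0 (htl.trans_le hδ1) k hf0 n hn).trans (mul_le_mul_of_nonneg_left ?_ hC₂)
      rw [hw]
      exact mul_le_mul_of_nonneg_left hmdt hyε.le
    have hEs : ∀ s' : ℝ, Fam (lam ρ β) h v C₁ p m t (k + s' • u) →
        lam ρ β (h + k + s' • u) ≤ lam ρ β (h + k) + inner ℝ v u * s' + C₁ * t ^ p := by
      intro s' hs'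
      have e1 := gap_div hL h v (k + s' • u) hm hCt hs'.2.1
      unfold gap at e1
      rw [inner_add_right, inner_smul_right, ← add_assoc] at e1
      have e2 := hs k
      linarith
    have hE : ∀ s' : ℝ, |s'| = σ →
        lam ρ β (h + k + s' • u) ≤ lam ρ β (h + k) + inner ℝ v u * s' + C₁ * t ^ p := by
      intro s' hs'
      rcases (abs_eq hσ0.le).1 hs' with h1 | h1
      · rw [h1]
        exact hEs σ hfp
      · rw [h1]
        exact hEs (-σ) hfm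
    have hexp : n * (C₁ * t ^ p) + 3 * w + C₂ * w - σ * W ≤
        C' * (n : ℝ) ^ (x + ε) - (n : ℝ) ^ (x + 3 * ε) / ((2 * m : ℕ) : ℝ) := by
      obtain ⟨y, hy⟩ : ∃ y : ℝ, y = (n : ℝ) ^ ε := ⟨_, rfl⟩
      have f1 : (n : ℝ) ^ (x + ε) = (n : ℝ) ^ x * y := by rw [hy, Real.rpow_add hn0]
      have f2 : (n : ℝ) ^ (x + 3 * ε) = (n : ℝ) ^ x * (n : ℝ) ^ (3 * ε) := Real.rpow_add hn0 _ _
      have f3 : (n : ℝ) ^ (3 * ε) = y * (n : ℝ) ^ (2 * ε) := by
        rw [hy, ← Real.rpow_add hn0]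
        congr 1
        ring
      obtain ⟨Y, hY⟩ : ∃ Y : ℝ, Y = (n : ℝ) ^ (3 * ε) := ⟨_, rfl⟩
      have f4 : n * (C₁ * t ^ p) = C₁ * T := by
        rw [hT]
        ring
      have f5 : Y * T ≤ t * W := by
        have g1 : (n : ℝ) ^ (3 * ε) ≤ (n : ℝ) ^ e := Real.rpow_le_rpow_of_exponent_le hn1 hεe
        have g2 : (n : ℝ) ^ (3 * ε) * T ≤ (n : ℝ) ^ e *
            (t * (n * a ^ (p - 1) + (n : ℝ) ^ aX p x)) :=
          mul_le_mul g1 A3 hT0.le (Real.rpow_nonneg hn0.le _)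
        have g3 := mul_le_mul_of_nonneg_left hW ht0.le
        rw [hY]
        linarith
      have f6 : Y * T / (2 * m) ≤ σ * W := by
        rw [hσ, div_mul_eq_mul_div]
        exact div_le_div_of_nonneg_right f5 (by positivity)
      have f8 : C₁ * T ≤ C₁ * T * y :=
        le_mul_of_one_le_right (by positivity) (by rw [hy]; exact hyε1)
      have f9 : n * (C₁ * t ^ p) + 3 * w + C₂ * w ≤ C' * y * T := by
        rw [f4, hw, hC', ← hy]
        nlinarith [f8]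
      have hy0 : 0 ≤ y := by
        rw [hy]
        exact hyε.le
      have f10 : C' * y ≤ Y / (2 * m) := by
        rw [le_div_iff₀ (by positivity), hY, f3]
        nlinarith [mul_le_mul_of_nonneg_left hb1 hy0]
      have f11 : (C' * y - Y / (2 * m)) * T ≤ (C' * y - Y / (2 * m)) * (n : ℝ) ^ x :=
        mul_le_mul_of_nonpos_left A1 (by linarith)
      rw [f1, f2, hcast2, ← hY]
      have f12 : Y * T / (2 * m) = Y / (2 * m) * T := by ring
      have f13 : (n : ℝ) ^ x * Y / (2 * m) = Y / (2 * m) * (n : ℝ) ^ x := by ring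
      rw [f12] at f6
      rw [f13]
      linarith
    have hmain := TubW_split (μ := law d ρ)
      (f := fun η => 1 - PolT β (h + k) η (slb d n u (inner ℝ v u) W)) (hint u)
      (G := {η | GdL7 ρ β (h + k) u σ w n η}) (b := 4 * (n : ℝ) ^ (-(Q : ℝ)))
      (by positivity)
      (fun η hη => by
        have g1 := Li70.slab_goodL (r := W) hd hρ hσ0 hCt hE hR hη
        have g2 := (mul_le_mul_of_nonneg_left (Real.exp_le_exp.2 hexp)
          (show (0 : ℝ) ≤ 2 * (n + 1) by positivity))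
        have g3 : 2 * ((n : ℝ) + 1) * Real.exp (C' * (n : ℝ) ^ (x + ε) -
            (n : ℝ) ^ (x + 3 * ε) / ((2 * m : ℕ) : ℝ)) ≤ 4 * (n : ℝ) ^ (-(Q : ℝ)) := by
          have g4 := hasym
          have g5 : (0 : ℝ) < ((2 * m : ℕ) : ℝ) := by
            rw [hcast2]
            positivity
          refine le_of_mul_le_mul_left (a := ((2 * m : ℕ) : ℝ)) ?_ g5
          calc ((2 * m : ℕ) : ℝ) * (2 * ((n : ℝ) + 1) * Real.exp (C' * (n : ℝ) ^ (x + ε) -
                (n : ℝ) ^ (x + 3 * ε) / ((2 * m : ℕ) : ℝ)))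
              = 2 * ((2 * m : ℕ) : ℝ) * ((n : ℝ) + 1) * Real.exp (C' * (n : ℝ) ^ (x + ε) -
                (n : ℝ) ^ (x + 3 * ε) / ((2 * m : ℕ) : ℝ)) := by ring
            _ ≤ 4 * ((2 * m : ℕ) : ℝ) * (n : ℝ) ^ (-(Q : ℝ)) := g4
            _ = ((2 * m : ℕ) : ℝ) * (4 * (n : ℝ) ^ (-(Q : ℝ))) := by ring
        exact (g1.trans g2).trans g3)
      (hint0 u)
    have hset : ({η | GdL7 ρ β (h + k) u σ w n η} : Set (Env d))ᶜ =
        {η | ¬ GdL7 ρ β (h + k) u σ w n η} := rfl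
    rw [hset] at hmain
    refine hmain.trans ?_
    calc (law d ρ).real {η | ¬ GdL7 ρ β (h + k) u σ w n η} +
          4 * (n : ℝ) ^ (-(Q : ℝ)) ≤ C₃ * (n : ℝ) ^ (-(Q : ℝ)) +
          4 * (n : ℝ) ^ (-(Q : ℝ)) := add_le_add hbad le_rfl
      _ = (C₃ + 4) * (n : ℝ) ^ (-(Q : ℝ)) := by ring
      _ ≤ _ := mul_le_mul_of_nonneg_right (le_max_left _ _) hq0

end Tub7

/-- **H2** The slabs. -/
theorem h2 {d : ℕ} {ρ : Measure ℝ} [IsProbabilityMeasure ρ] (hd : 0 < d) (hρ : EM ρ) (β : ℝ) :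
    H2 d ρ β := Tub7.h2_7 hd hρ β

end Pool.Agent.W_7d29a1_H96
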