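import Pool.Agent.W_7d29a1_H96.RatH96
import Pool.Agent.W_7d29a1_V.AeLT7

/-!
A good direction at every scale: the slabs (leaf H2).
-/

namespace Pool.Agent.W_7d29a1_H96

open MeasureTheory ProbabilityTheory Filter Topology Pool.Agent.W_MP_7d29a1_pr
  Pool.Agent.W_7d29a1_h46 Pool.Agent.W_7d29a1_h46u Pool.Agent.W_7d29a1_D2 Pool.Agent.W_7d29a1_V
  Pool.Agent.W_7d29a1_V.Ae7

variable {d : ℕ}

lemma gap_zero96 (L : Vec d → ℝ) (h v : Vec d) : gap L h v 0 = 0 := by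
  unfold gap
  rw [add_zero, inner_zero_right]
  ring

lemma gap_cvx96 {L : Vec d → ℝ} (hL : ConvexOn ℝ Set.univ L) (h v a b : Vec d) {s : ℝ}
    (hs : 0 ≤ s) (hs1 : s ≤ 1) :
    gap L h v (s • a + (1 - s) • b) ≤ s * gap L h v a + (1 - s) * gap L h v b := by
  have h1 := hL.2 (Set.mem_univ (h + a)) (Set.mem_univ (h + b)) hs (sub_nonneg.2 hs1)
    (by ring : s + (1 - s) = 1)
  have h2 : s • (h + a) + (1 - s) • (h + b) = h + (s • a + (1 - s) • b) := by
    rw [smul_add, smul_add, sub_smul, sub_smul, one_smul, one_smul]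
    abel
  rw [h2, smul_eq_mul, smul_eq_mul] at h1
  unfold gap
  rw [inner_add_right, real_inner_smul_right, real_inner_smul_right]
  linarith

lemma fam_mid96 {L : Vec d → ℝ} (hL : ConvexOn ℝ Set.univ L) {h v : Vec d} {C₁ p t T s : ℝ}
    {m : ℕ} (hm : 1 ≤ m) (hC : 0 ≤ C₁) (ht : 0 < t) (htT : t ≤ T) (hp : 0 ≤ p) {k u : Vec d}
    (hk : Fam L h v C₁ p (2 * m) t k) (hu1 : ‖s • u‖ ≤ 1)
    (hup : gap L h v (s • u) ≤ C₁ * T ^ p) (hum : gap L h v (-(s • u)) ≤ C₁ * T ^ p) :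
    Fam L h v C₁ p m T (k + (s / (2 * m)) • u) := by
  have hm0 : (0 : ℝ) < m := by exact_mod_cast hm
  obtain ⟨k1, k2, k3⟩ := hk
  have e1 : (m : ℝ) • (k + (s / (2 * m)) • u) =
      (1 / 2 : ℝ) • (((2 * m : ℕ) : ℝ) • k) + (1 - 1 / 2 : ℝ) • (s • u) := by
    rw [smul_add, smul_smul, smul_smul, smul_smul]
    congr 2
    · push_cast
      ring
    · field_simp
      ring
  have e2 : -((m : ℝ) • (k + (s / (2 * m)) • u)) =
      (1 / 2 : ℝ) • (-(((2 * m : ℕ) : ℝ) • k)) + (1 - 1 / 2 : ℝ) • (-(s • u)) := by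
    rw [e1, smul_neg, smul_neg]
    abel
  have hT : C₁ * t ^ p ≤ C₁ * T ^ p :=
    mul_le_mul_of_nonneg_left (Real.rpow_le_rpow ht.le htT hp) hC
  refine ⟨?_, ?_, ?_⟩
  · rw [e1]
    refine (norm_add_le _ _).trans ?_
    rw [norm_smul, norm_smul (1 - 1 / 2 : ℝ), Real.norm_of_nonneg (by norm_num),
      Real.norm_of_nonneg (by norm_num)]
    linarith
  · rw [e1]
    have := gap_cvx96 hL h v (((2 * m : ℕ) : ℝ) • k) (s • u) (s := 1 / 2) (by norm_num)
      (by norm_num)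
    linarith
  · rw [e2]
    have := gap_cvx96 hL h v (-(((2 * m : ℕ) : ℝ) • k)) (-(s • u)) (s := 1 / 2) (by norm_num)
      (by norm_num)
    linarith

lemma fam_gap96 {L : Vec d → ℝ} (hL : ConvexOn ℝ Set.univ L) {h v : Vec d} {C₁ p T : ℝ}
    {m : ℕ} (hm : 1 ≤ m) (hC : 0 ≤ C₁) (hT : 0 ≤ T) {z : Vec d}
    (hz : Fam L h v C₁ p m T z) : gap L h v z ≤ C₁ * T ^ p := by
  have hm0 : (1 : ℝ) ≤ m := by exact_mod_cast hm
  obtain ⟨-, k2, -⟩ := hz
  have h1 := gap_cvx96 hL h v ((m : ℝ) • z) 0 (s := 1 / m) (by positivity)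
    (by rw [div_le_one (by linarith)]; exact hm0)
  have e1 : (1 / m : ℝ) • ((m : ℝ) • z) + (1 - 1 / m : ℝ) • (0 : Vec d) = z := by
    rw [smul_zero, add_zero, smul_smul, one_div, inv_mul_cancel₀ (by linarith), one_smul]
  rw [e1, gap_zero96, mul_zero, add_zero] at h1
  refine h1.trans ?_
  have hCT : 0 ≤ C₁ * T ^ p := mul_nonneg hC (Real.rpow_nonneg hT _)
  have h2 : (1 / m : ℝ) ≤ 1 := by rw [div_le_one (by linarith)]; exact hm0
  have h3 : (0 : ℝ) ≤ 1 / m := by positivity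
  calc (1 / m : ℝ) * gap L h v ((m : ℝ) • z) ≤ (1 / m : ℝ) * (C₁ * T ^ p) :=
        mul_le_mul_of_nonneg_left k2 h3
    _ ≤ 1 * (C₁ * T ^ p) := mul_le_mul_of_nonneg_right h2 hCT
    _ = _ := one_mul _

variable {ρ : Measure ℝ} [IsProbabilityMeasure ρ]

set_option maxHeartbeats 1000000 in
/-- Leaf H2. -/
theorem h2_96 (hd : 0 < d) (hρ : EM ρ) (β : ℝ) : H2 d ρ β := by
  intro h v Cc D p x m hCc hm hp hv hU hx hx1 hF e he Q
  have hx0 : 0 < x := lt_of_lt_of_le (by positivity) hx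
  have hcvx : ConvexOn ℝ Set.univ (lam ρ β) := lam_convex hd hρ β
  have hm0 : (0 : ℝ) < m := by exact_mod_cast hm
  have hm2 : (0 : ℝ) < 2 * m := by linarith
  obtain ⟨ε, hε, hεe, hε1⟩ : ∃ ε : ℝ, 0 < ε ∧ 3 * ε ≤ e ∧ ε < 1 / 2 := by
    refine ⟨min (e / 3) (1 / 4), lt_min (by linarith) (by norm_num), ?_, ?_⟩
    · have := min_le_left (e / 3) (1 / 4)
      linarith
    · have := min_le_right (e / 3) (1 / 4)
      linarith
  obtain ⟨r₁, hr₁, C₁, hC₁, H₁⟩ := rateH hd hρ hx0.le hx1 hF hε hε1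
  obtain ⟨r₂, hr₂, C₂, hC₂, H₂⟩ := probH hd hρ hx0.le hF hε Q
  obtain ⟨δ, hδ, H₃⟩ := hU
  obtain ⟨κ, hκ⟩ : ∃ κ : ℝ, κ = min (min r₁ r₂) (min δ (1 / (|D| + 1))) := ⟨_, rfl⟩
  have hκ0 : 0 < κ := by
    rw [hκ]
    have : 0 < 1 / (|D| + 1) := by positivity
    exact lt_min (lt_min hr₁ hr₂) (lt_min hδ this)
  have hκ1 : κ ≤ r₁ := by rw [hκ]; exact (min_le_left _ _).trans (min_le_left _ _)
  have hκ2 : κ ≤ r₂ := by rw [hκ]; exact (min_le_left _ _).trans (min_le_right _ _)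
  have hκ3 : κ ≤ δ := by rw [hκ]; exact (min_le_right _ _).trans (min_le_left _ _)
  have hκ4 : κ ≤ 1 / (|D| + 1) := by rw [hκ]; exact (min_le_right _ _).trans (min_le_right _ _)
  obtain ⟨S, hS⟩ : ∃ S : ℝ, S = (2 : ℝ) ^ ((p - 1) / 2) := ⟨_, rfl⟩
  have hS0 : 0 < S := by
    rw [hS]
    positivity
  obtain ⟨C', hC'⟩ : ∃ C' : ℝ, C' = Cc + 3 * (1 + S) + C₁ * (1 + S) := ⟨_, rfl⟩
  have hC'0 : 0 ≤ C' := by
    rw [hC']
    positivity
  -- large `n`
  have hcast := tendsto_natCast_atTop_atTop (R := ℝ)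
  have hsmall : ∀ᶠ n : ℕ in atTop, (n : ℝ) ^ ((x - 1) / p) < κ := by
    have h0 : 0 < (1 - x) / p := div_pos (by linarith) (by linarith)
    have h1 := (tendsto_rpow_neg_atTop h0).comp hcast
    have h2 := h1.eventually (gt_mem_nhds hκ0)
    refine h2.mono fun n hn => ?_
    have e1 : (x - 1) / p = -((1 - x) / p) := by ring
    rw [e1]
    exact hn
  have hbig : ∀ᶠ n : ℕ in atTop, 2 * m * C' ≤ (n : ℝ) ^ (2 * ε) :=
    ((tendsto_rpow_atTop (show 0 < 2 * ε by linarith)).comp hcast).eventually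
      (eventually_ge_atTop _)
  obtain ⟨N, hN⟩ := eventually_atTop.1
    ((hsmall.and hbig).and (TubW_asym (2 * m) (by omega) C' hC'0 hx0 hε Q))
  refine ⟨κ, hκ0, max (C₂ + 4 * (2 * m)) ((N : ℝ) ^ (Q : ℝ)), fun t ht0 htκ k hk n hn W hW => ?_⟩
  have hn1 : (1 : ℝ) ≤ n := by exact_mod_cast hn
  have hn0 : (0 : ℝ) < n := by linarith
  have hq0 : 0 ≤ (n : ℝ) ^ (-(Q : ℝ)) := Real.rpow_nonneg hn0.le _
  rcases lt_or_ge n N with hnN | hnN
  · -- small n
    obtain ⟨j, -⟩ : ∃ j : Fin d, True := ⟨⟨0, hd⟩, trivial⟩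
    refine ⟨EuclideanSpace.single j 1, ⟨j, by simp⟩, ?_⟩
    set u : Vec d := EuclideanSpace.single j 1
    have hint : ∀ η : Env d, 1 - PolT β (h + k) η (slb d n u (inner ℝ v u) W) ≤ 1 := fun η => by
      have := PolT_nonneg β (h + k) η (slb d n u (inner ℝ v u) W)
      linarith
    have hint0 : ∀ η : Env d, 0 ≤ 1 - PolT β (h + k) η (slb d n u (inner ℝ v u) W) := fun η => by
      have := PolT_le_one β (h + k) η (slb d n u (inner ℝ v u) W)
      linarith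
    have h1 : ∫ η, (1 - PolT β (h + k) η (slb d n u (inner ℝ v u) W)) ∂(law d ρ) ≤ 1 := by
      have h2 := integral_mono_of_nonneg (μ := law d ρ) (Eventually.of_forall hint0)
        (integrable_const (1 : ℝ)) (Eventually.of_forall hint)
      refine h2.trans (le_of_eq ?_)
      simp
    refine h1.trans ?_
    have h3 : 1 ≤ (N : ℝ) ^ (Q : ℝ) * (n : ℝ) ^ (-(Q : ℝ)) := by
      rw [Real.rpow_neg hn0.le, ← div_eq_mul_inv, one_le_div (Real.rpow_pos_of_pos hn0 _)]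
      exact Real.rpow_le_rpow hn0.le (by exact_mod_cast hnN.le) (Nat.cast_nonneg Q)
    exact h3.trans (mul_le_mul_of_nonneg_right (le_max_right _ _) hq0)
  · obtain ⟨⟨ht1, hb1⟩, hasym⟩ := hN n hnN
    obtain ⟨τ, hτ⟩ : ∃ τ : ℝ, τ = max t ((n : ℝ) ^ ((x - 1) / p)) := ⟨_, rfl⟩
    obtain ⟨A1, A2, A3⟩ := arithM hp hx ht0.le hn hτ
    have hat : t ≤ τ := by
      rw [hτ]
      exact le_max_left _ _
    have hτ0 : 0 < τ := lt_of_lt_of_le ht0 hat
    have hτκ : τ < κ := by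
      rw [hτ]
      exact max_lt htκ ht1
    rw [← hS] at A2
    obtain ⟨T, hT⟩ : ∃ T : ℝ, T = n * τ ^ p := ⟨_, rfl⟩
    rw [← hT] at A1 A2 A3
    have hT0 : 0 < T := by
      rw [hT]
      positivity
    -- the good direction at the scale `τ`
    obtain ⟨u, ⟨hu1, hu2⟩, hu3, hu4⟩ := H₃ τ hτ0 (hτκ.le.trans hκ3)
    refine ⟨u, hu2, ?_⟩
    have hint : ∀ η : Env d, 1 - PolT β (h + k) η (slb d n u (inner ℝ v u) W) ≤ 1 := fun η => by
      have := PolT_nonneg β (h + k) η (slb d n u (inner ℝ v u) W)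
      linarith
    have hint0 : ∀ η : Env d, 0 ≤ 1 - PolT β (h + k) η (slb d n u (inner ℝ v u) W) := fun η => by
      have := PolT_le_one β (h + k) η (slb d n u (inner ℝ v u) W)
      linarith
    have hCT : 0 ≤ Cc * τ ^ p := mul_nonneg hCc (Real.rpow_nonneg hτ0.le _)
    have hnu : ‖τ • u‖ ≤ 1 := by
      rw [norm_smul, Real.norm_of_nonneg hτ0.le]
      have h1 : ‖u‖ ≤ |D| + 1 := hu1.trans ((le_abs_self D).trans (by linarith))
      have h2 : τ ≤ 1 / (|D| + 1) := hτκ.le.trans hκ4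
      have h3 : 0 < |D| + 1 := by positivity
      calc τ * ‖u‖ ≤ 1 / (|D| + 1) * (|D| + 1) :=
            mul_le_mul h2 h1 (norm_nonneg _) (by positivity)
        _ = 1 := by
            field_simp
    have hz0 : Fam (lam ρ β) h v Cc p m τ k := by
      have h1 := fam_mid96 (s := 0) (u := u) hcvx hm hCc ht0 hat (by linarith) hk (by simp)
        (by rw [zero_smul, gap_zero96]; exact hCT)
        (by rw [zero_smul, neg_zero, gap_zero96]; exact hCT)
      rwa [zero_div, zero_smul, add_zero] at h1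
    have hzp : Fam (lam ρ β) h v Cc p m τ (k + (τ / (2 * m)) • u) :=
      fam_mid96 hcvx hm hCc ht0 hat (by linarith) hk hnu hu3 hu4
    have hzm : Fam (lam ρ β) h v Cc p m τ (k + (-(τ / (2 * m))) • u) := by
      have h1 := fam_mid96 (s := -τ) (u := u) hcvx hm hCc ht0 hat (by linarith) hk
        (by rw [neg_smul, norm_neg]; exact hnu) (by rw [neg_smul]; exact hu4)
        (by rw [neg_smul, neg_neg]; exact hu3)
      rwa [neg_div] at h1
    obtain ⟨σ, hσ⟩ : ∃ σ : ℝ, σ = τ / (2 * m) := ⟨_, rfl⟩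
    have hσ0 : 0 < σ := by
      rw [hσ]
      positivity
    rw [← hσ] at hzp hzm
    have hmdt : md x (τ ^ (p - 1)) n ≤ (1 + S) * T := by
      refine (md_mono_t (Real.rpow_le_rpow hτ0.le (by linarith : τ ≤ 2 * τ) (by linarith)) n).trans
        ?_
      unfold md
      linarith
    have hyε : 0 < (n : ℝ) ^ ε := Real.rpow_pos_of_pos hn0 _
    have hyε1 : 1 ≤ (n : ℝ) ^ ε := Real.one_le_rpow hn1 hε.le
    obtain ⟨w, hw⟩ : ∃ w : ℝ, w = (n : ℝ) ^ ε * ((1 + S) * T) := ⟨_, rfl⟩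
    have hbad := H₂ τ hτ0 (hτκ.trans_le hκ2) k u σ hz0 hzp hzm n w hn (by
      rw [hw]
      exact mul_le_mul_of_nonneg_left hmdt hyε.le)
    have hR : n * lam ρ β (h + k) - A ρ β (h + k) n ≤ C₁ * w := by
      refine (H₁ τ hτ0 (hτκ.trans_le hκ1) k hz0 n hn).trans (mul_le_mul_of_nonneg_left ?_ hC₁)
      rw [hw]
      exact mul_le_mul_of_nonneg_left hmdt hyε.le
    have hE : ∀ σ' : ℝ, |σ'| = σ →
        lam ρ β (h + k + σ' • u) ≤ lam ρ β (h + k) + inner ℝ v u * σ' + Cc * τ ^ p := by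
      intro σ' hσ'
      have hz : gap (lam ρ β) h v (k + σ' • u) ≤ Cc * τ ^ p := by
        rcases abs_eq hσ0.le |>.1 hσ' with h1 | h1
        · rw [h1]
          exact fam_gap96 hcvx hm hCc hτ0.le hzp
        · rw [h1]
          exact fam_gap96 hcvx hm hCc hτ0.le hzm
      unfold gap at hz
      rw [inner_add_right, real_inner_smul_right, ← add_assoc] at hz
      have e5 := hv k
      linarith
    have hexp : n * (Cc * τ ^ p) + 3 * w + C₁ * w - σ * W ≤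
        C' * (n : ℝ) ^ (x + ε) - (n : ℝ) ^ (x + 3 * ε) / ((2 * m : ℕ) : ℝ) := by
      obtain ⟨y, hy⟩ : ∃ y : ℝ, y = (n : ℝ) ^ ε := ⟨_, rfl⟩
      have f1 : (n : ℝ) ^ (x + ε) = (n : ℝ) ^ x * y := by rw [hy, Real.rpow_add hn0]
      have f2 : (n : ℝ) ^ (x + 3 * ε) = (n : ℝ) ^ x * (n : ℝ) ^ (3 * ε) := Real.rpow_add hn0 _ _
      have f3 : (n : ℝ) ^ (3 * ε) = y * (n : ℝ) ^ (2 * ε) := by
        rw [hy, ← Real.rpow_add hn0]
        congr 1
        ring
      have f4 : n * (Cc * τ ^ p) = Cc * T := by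
        rw [hT]
        ring
      have f5 : (n : ℝ) ^ (3 * ε) * T ≤ τ * W := by
        have g1 : (n : ℝ) ^ (3 * ε) ≤ (n : ℝ) ^ e := Real.rpow_le_rpow_of_exponent_le hn1 hεe
        have g2 : (n : ℝ) ^ (3 * ε) * T ≤ (n : ℝ) ^ e *
            (τ * (n * t ^ (p - 1) + (n : ℝ) ^ aX p x)) :=
          mul_le_mul g1 A3 hT0.le (Real.rpow_nonneg hn0.le _)
        have g3 := mul_le_mul_of_nonneg_left hW hτ0.le
        linarith
      have f6 : (n : ℝ) ^ (3 * ε) / (2 * m) * T ≤ σ * W := by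
        have g1 : (n : ℝ) ^ (3 * ε) / (2 * m) * T = (n : ℝ) ^ (3 * ε) * T / (2 * m) := by ring
        have g2 : σ * W = τ * W / (2 * m) := by
          rw [hσ]
          ring
        rw [g1, g2]
        exact div_le_div_of_nonneg_right f5 hm2.le
      have hy1 : 1 ≤ y := by
        rw [hy]
        exact hyε1
      have f8 : Cc * T ≤ Cc * T * y :=
        le_mul_of_one_le_right (by positivity) hy1
      have f9 : n * (Cc * τ ^ p) + 3 * w + C₁ * w ≤ C' * y * T := by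
        rw [f4, hw, hC', ← hy]
        have g1 : (Cc + 3 * (1 + S) + C₁ * (1 + S)) * y * T - (Cc * T + 3 * (y * ((1 + S) * T)) +
            C₁ * (y * ((1 + S) * T))) = Cc * T * y - Cc * T := by ring
        linarith
      have f10 : C' * y ≤ (n : ℝ) ^ (3 * ε) / (2 * m) := by
        rw [f3, le_div_iff₀ hm2]
        have g1 := mul_le_mul_of_nonneg_left hb1 (by linarith : 0 ≤ y)
        have g2 : y * (2 * m * C') = C' * y * (2 * m) := by ring
        rw [g2] at g1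
        exact g1
      have f11 : (C' * y - (n : ℝ) ^ (3 * ε) / (2 * m)) * T ≤
          (C' * y - (n : ℝ) ^ (3 * ε) / (2 * m)) * (n : ℝ) ^ x :=
        mul_le_mul_of_nonpos_left A1 (by linarith)
      have f12 : (n : ℝ) ^ x * (n : ℝ) ^ (3 * ε) / (2 * m) =
          (n : ℝ) ^ (3 * ε) / (2 * m) * (n : ℝ) ^ x := by ring
      rw [f1, f2]
      push_cast
      rw [f12]
      linarith
    have hm1 : (1 : ℝ) ≤ ((2 * m : ℕ) : ℝ) := by
      have : 1 ≤ 2 * m := by omega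
      exact_mod_cast this
    have hmain := TubW_split (μ := law d ρ)
      (f := fun η => 1 - PolT β (h + k) η (slb d n u (inner ℝ v u) W)) hint
      (G := {η | GdL7 ρ β (h + k) u σ w n η}) (b := 4 * (2 * m) * (n : ℝ) ^ (-(Q : ℝ)))
      (by positivity)
      (fun η hη => by
        have g1 := Li70.slab_goodL (r := W) hd hρ hσ0 hCT hE hR hη
        have g0 : 2 * ((n : ℝ) + 1) ≤ 2 * ((2 * m : ℕ) : ℝ) * ((n : ℝ) + 1) := by
          nlinarith
        have g2 := mul_le_mul g0 (Real.exp_le_exp.2 hexp) (Real.exp_pos _).le (by positivity)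
        have g4 := hasym
        have g5 : ((2 * m : ℕ) : ℝ) = 2 * m := by push_cast; ring
        rw [g5] at g2 g4
        exact (g1.trans g2).trans g4)
      hint0
    have hset : ({η | GdL7 ρ β (h + k) u σ w n η} : Set (Env d))ᶜ =
        {η | ¬ GdL7 ρ β (h + k) u σ w n η} := rfl
    rw [hset] at hmain
    refine hmain.trans ?_
    calc (law d ρ).real {η | ¬ GdL7 ρ β (h + k) u σ w n η} +
          4 * (2 * m) * (n : ℝ) ^ (-(Q : ℝ)) ≤ C₂ * (n : ℝ) ^ (-(Q : ℝ)) +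
          4 * (2 * m) * (n : ℝ) ^ (-(Q : ℝ)) := add_le_add hbad le_rfl
      _ = (C₂ + 4 * (2 * m)) * (n : ℝ) ^ (-(Q : ℝ)) := by ring
      _ ≤ _ := mul_le_mul_of_nonneg_right (le_max_left _ _) hq0

end Pool.Agent.W_7d29a1_H96
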